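import Pool.Agent.DSP.Rot

set_option autoImplicit false

/-! The configuration map `conf`. -/

open Quaternion Matrix Topology

namespace Pool.Agent.DSP

variable (a b c : ℝ) (g : E3 → ℝ)

/-- the value of `g` at the vertex `j` -/
private noncomputable def Gv (x : E3) (s : ℝ) (q : S3) (j : Fin 4) : ℝ :=
  g (x + rot (q : ℍ[ℝ]) (tv a b c j - s • tv a b c 0))

private theorem conf_coord (x : E3) (s : ℝ) (q : S3) : conf a b c g x s q =
    (!₂[Gv a b c g x s q 0 + Gv a b c g x s q 1 - Gv a b c g x s q 2 - Gv a b c g x s q 3,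
      Gv a b c g x s q 0 - Gv a b c g x s q 1 + Gv a b c g x s q 2 - Gv a b c g x s q 3,
      Gv a b c g x s q 0 - Gv a b c g x s q 1 - Gv a b c g x s q 2 + Gv a b c g x s q 3] : E3) := by
  have h : conf a b c g x s q = ∑ j, Gv a b c g x s q j • tv 1 1 1 j := rfl
  rw [h, Fin.sum_univ_four]
  ext i
  fin_cases i
  · simp [tv]
    ring
  · simp [tv]
    ring
  · simp [tv]
    ring

private theorem conf_zero_iff' (x : E3) (s : ℝ) (q : S3) : conf a b c g x s q = 0 ↔
    ∀ i j, Gv a b c g x s q i = Gv a b c g x s q j := by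
  rw [conf_coord]
  constructor
  · intro h
    have h0 : Gv a b c g x s q 0 + Gv a b c g x s q 1 - Gv a b c g x s q 2 - Gv a b c g x s q 3 = 0 := by
      simpa using congrArg (fun v : E3 => v 0) h
    have h1 : Gv a b c g x s q 0 - Gv a b c g x s q 1 + Gv a b c g x s q 2 - Gv a b c g x s q 3 = 0 := by
      simpa using congrArg (fun v : E3 => v 1) h
    have h2 : Gv a b c g x s q 0 - Gv a b c g x s q 1 - Gv a b c g x s q 2 + Gv a b c g x s q 3 = 0 := by
      simpa using congrArg (fun v : E3 => v 2) h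
    have e1 : Gv a b c g x s q 1 = Gv a b c g x s q 0 := by linarith
    have e2 : Gv a b c g x s q 2 = Gv a b c g x s q 0 := by linarith
    have e3 : Gv a b c g x s q 3 = Gv a b c g x s q 0 := by linarith
    have key : ∀ i, Gv a b c g x s q i = Gv a b c g x s q 0 := by
      intro i
      fin_cases i
      · rfl
      · exact e1
      · exact e2
      · exact e3
    intro i j
    rw [key i, key j]
  · intro h
    rw [h 1 0, h 2 0, h 3 0]
    ext i
    fin_cases i <;> simp

/-- The four values are equal iff `conf` vanishes (the matrix with rows `1, e_0.., ` is a Hadamard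
matrix). -/
theorem conf_eq_zero_iff (x : E3) (s : ℝ) (q : S3) : conf a b c g x s q = 0 ↔
    ∀ i j, g (x + rot (q : ℍ[ℝ]) (tv a b c i - s • tv a b c 0)) =
      g (x + rot (q : ℍ[ℝ]) (tv a b c j - s • tv a b c 0)) :=
  conf_zero_iff' a b c g x s q

/-- If the value at the vertex `0` is the largest one and `conf ≠ 0`, then `conf` lies in the open
half-space of `(1,1,1)`: `⟪conf, (1,1,1)⟫ = 3 g₀ - g₁ - g₂ - g₃`. -/
theorem conf_pos (x : E3) (s : ℝ) (q : S3)
    (hmax : ∀ j, g (x + rot (q : ℍ[ℝ]) (tv a b c j - s • tv a b c 0)) ≤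
      g (x + rot (q : ℍ[ℝ]) (tv a b c 0 - s • tv a b c 0)))
    (hne : conf a b c g x s q ≠ 0) :
    0 < (inner ℝ (conf a b c g x s q) (!₂[(1 : ℝ), 1, 1] : E3) : ℝ) := by
  have hm : ∀ j, Gv a b c g x s q j ≤ Gv a b c g x s q 0 := hmax
  have hi : (inner ℝ (conf a b c g x s q) (!₂[(1 : ℝ), 1, 1] : E3) : ℝ) =
      3 * Gv a b c g x s q 0 - Gv a b c g x s q 1 - Gv a b c g x s q 2 - Gv a b c g x s q 3 := by
    rw [conf_coord, PiLp.inner_apply, Fin.sum_univ_three]
    simp
    ring
  rw [hi]
  by_contra hcon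
  apply hne
  rw [conf_zero_iff']
  have m1 := hm 1
  have m2 := hm 2
  have m3 := hm 3
  have e1 : Gv a b c g x s q 1 = Gv a b c g x s q 0 := le_antisymm m1 (by linarith)
  have e2 : Gv a b c g x s q 2 = Gv a b c g x s q 0 := le_antisymm m2 (by linarith)
  have e3 : Gv a b c g x s q 3 = Gv a b c g x s q 0 := le_antisymm m3 (by linarith)
  have key : ∀ i, Gv a b c g x s q i = Gv a b c g x s q 0 := by
    intro i
    fin_cases i
    · rfl
    · exact e1
    · exact e2
    · exact e3
  intro i j
  rw [key i, key j]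

theorem conf_even (x : E3) (s : ℝ) (q : S3) : conf a b c g x s (-q) = conf a b c g x s q := by
  unfold conf
  refine Finset.sum_congr rfl fun j _ => ?_
  rw [rot_neg]

private theorem cont_rot_comp {X : Type*} [TopologicalSpace X] {f : X → S3} {v : X → E3}
    (hf : Continuous f) (hv : Continuous v) : Continuous fun x => rot (f x : ℍ[ℝ]) (v x) := by
  have h : Continuous ((fun z : S3 × E3 => rot (z.1 : ℍ[ℝ]) z.2) ∘ (fun x => (f x, v x))) :=
    Continuous.comp continuous_rot (hf.prodMk hv)
  exact h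

private theorem cont_term {X : Type*} [TopologicalSpace X] {f : X → S3} {v x : X → E3}
    (hg : Continuous g) (hf : Continuous f) (hv : Continuous v) (hx : Continuous x) (w : E3) :
    Continuous fun z => g (x z + rot (f z : ℍ[ℝ]) (v z)) • w := by
  have h1 := hx.add (cont_rot_comp hf hv)
  have h2 : Continuous fun z => g (x z + rot (f z : ℍ[ℝ]) (v z)) := hg.comp h1
  exact h2.smul continuous_const

theorem continuous_conf (hg : Continuous g) :
    Continuous fun z : (E3 × ℝ) × S3 => conf a b c g z.1.1 z.1.2 z.2 := by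
  have h0 : Continuous fun z : (E3 × ℝ) × S3 => z.1.1 := by fun_prop
  have h1 : Continuous fun z : (E3 × ℝ) × S3 => z.1.2 := by fun_prop
  have h2 : Continuous fun z : (E3 × ℝ) × S3 => z.2 := by fun_prop
  have h4 : ∀ j, Continuous fun z : (E3 × ℝ) × S3 =>
      g (z.1.1 + rot (z.2 : ℍ[ℝ]) (tv a b c j - z.1.2 • tv a b c 0)) • tv 1 1 1 j := by
    intro j
    have h3 : Continuous fun z : (E3 × ℝ) × S3 => tv a b c j - z.1.2 • tv a b c 0 :=
      Continuous.sub continuous_const (h1.smul continuous_const)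
    exact cont_term g (f := fun z : (E3 × ℝ) × S3 => z.2)
      (v := fun z : (E3 × ℝ) × S3 => tv a b c j - z.1.2 • tv a b c 0)
      (x := fun z : (E3 × ℝ) × S3 => z.1.1) hg h2 h3 h0 (tv 1 1 1 j)
  unfold conf
  exact continuous_finsetSum _ fun j _ => h4 j

private theorem D1_tv (j : Fin 4) : D1 (tv a b c j) = tv a b c (![1, 0, 3, 2] j) := by
  fin_cases j <;> (ext i; fin_cases i <;> simp [D1, tv])

private theorem D2_tv (j : Fin 4) : D2 (tv a b c j) = tv a b c (![2, 3, 0, 1] j) := by
  fin_cases j <;> (ext i; fin_cases i <;> simp [D2, tv])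

/-- Equivariance of the centre-based map (`D1` exchanges `t_0 ↔ t_1`, `t_2 ↔ t_3`). -/
theorem conf_mul_qi (x : E3) (q : S3) :
    conf a b c g x 0 (q * qi) = D1 (conf a b c g x 0 q) := by
  have h : ∀ j, Gv a b c g x 0 (q * qi) j = Gv a b c g x 0 q (![1, 0, 3, 2] j) := by
    intro j
    unfold Gv
    rw [zero_smul, sub_zero, sub_zero, rot_mul_qi, D1_tv]
  rw [conf_coord, conf_coord, h, h, h, h]
  ext i
  fin_cases i
  · simp [D1]
    ring
  · simp [D1]
    ring
  · simp [D1]
    ring

theorem conf_mul_qj (x : E3) (q : S3) :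
    conf a b c g x 0 (q * qj) = D2 (conf a b c g x 0 q) := by
  have h : ∀ j, Gv a b c g x 0 (q * qj) j = Gv a b c g x 0 q (![2, 3, 0, 1] j) := by
    intro j
    unfold Gv
    rw [zero_smul, sub_zero, sub_zero, rot_mul_qj, D2_tv]
  rw [conf_coord, conf_coord, h, h, h, h]
  ext i
  fin_cases i
  · simp [D2]
    ring
  · simp [D2]
    ring
  · simp [D2]
    ring

end Pool.Agent.DSP
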