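import Pool.Agent.DSP.Defs

set_option autoImplicit false

/-! Extension of `f` by minus the distance outside `closure U`. -/

open Quaternion Matrix Topology

namespace Pool.Agent.DSP

/-- `g = f` on `closure U`, `g = - infDist · (closure U)` outside. -/
theorem exists_ext {U : Set E3} {f : E3 → ℝ} (hf : ContinuousOn f (closure U))
    (hff : ∀ x ∈ frontier U, f x = 0) (hne : U.Nonempty) :
    ∃ g : E3 → ℝ, Continuous g ∧ (∀ x ∈ closure U, g x = f x) ∧ ∀ x ∉ closure U, g x < 0 := by
  classical
  have hg0 : Continuous fun x : E3 => - Metric.infDist x (closure U) :=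
    (Metric.continuous_infDist_pt (closure U)).neg
  refine ⟨(closure U).piecewise f (fun x => - Metric.infDist x (closure U)), ?_, ?_, ?_⟩
  · rw [← continuousOn_univ]
    refine ContinuousOn.piecewise ?_ ?_ hg0.continuousOn
    · rintro x ⟨-, hx⟩
      have h1 : x ∈ frontier U := frontier_closure_subset hx
      have h2 : x ∈ closure U := frontier_subset_closure h1
      have h3 : Metric.infDist x (closure U) = 0 := Metric.infDist_zero_of_mem h2
      rw [hff x h1, h3, neg_zero]
    · rw [Set.univ_inter, closure_closure]
      exact hf
  · intro x hx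
    exact Set.piecewise_eq_of_mem _ _ _ hx
  · intro x hx
    rw [Set.piecewise_eq_of_notMem _ _ _ hx, neg_lt_zero]
    exact (isClosed_closure.notMem_iff_infDist_pos hne.closure).1 hx

/-- Shrinking to a connected piece: for a compact `M` with nonempty interior there are a connected
bounded open `U ⊆ M` with `frontier U ⊆ frontier M` and a closed ball inside `U`. (`U` = the connected
component of a point of the interior; compare Pool/Agent/InscribedSimplex/Main.lean.) -/
theorem exists_piece {M : Set E3} (hM : IsCompact M) (hint : (interior M).Nonempty) :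
    ∃ (U : Set E3) (y : E3) (r : ℝ), IsOpen U ∧ IsConnected U ∧ Bornology.IsBounded U ∧
      closure U ⊆ M ∧ frontier U ⊆ frontier M ∧ 0 < r ∧ Metric.closedBall y r ⊆ U := by
  obtain ⟨q, hq⟩ := hint
  set U := connectedComponentIn (interior M) q with hU
  have hUo : IsOpen U := isOpen_interior.connectedComponentIn
  have hqU : q ∈ U := mem_connectedComponentIn hq
  have hUc : IsConnected U := ⟨⟨q, hqU⟩, isPreconnected_connectedComponentIn⟩
  have hUM : U ⊆ M := (connectedComponentIn_subset _ _).trans interior_subset
  have hcl : closure U ⊆ M := closure_minimal hUM hM.isClosed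
  obtain ⟨ε, hε, hball⟩ := Metric.isOpen_iff.1 hUo q hqU
  refine ⟨U, q, ε / 2, hUo, hUc, hM.isBounded.subset hUM, hcl, ?_, half_pos hε, ?_⟩
  · intro x hx
    rw [frontier, Set.mem_sdiff]
    refine ⟨subset_closure (hcl (frontier_subset_closure hx)), fun hxi => ?_⟩
    rw [hUo.frontier_eq] at hx
    apply hx.2
    have hopen : IsOpen (connectedComponentIn (interior M) x) :=
      isOpen_interior.connectedComponentIn
    have hmem : x ∈ connectedComponentIn (interior M) x := mem_connectedComponentIn hxi
    obtain ⟨z, hz1, hz2⟩ := mem_closure_iff.1 hx.1 _ hopen hmem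
    have e1 : connectedComponentIn (interior M) x = connectedComponentIn (interior M) z :=
      connectedComponentIn_eq hz1
    have e2 : connectedComponentIn (interior M) q = connectedComponentIn (interior M) z :=
      connectedComponentIn_eq hz2
    rw [hU, e2, ← e1]
    exact hmem
  · exact (Metric.closedBall_subset_ball (half_lt_self hε)).trans hball

end Pool.Agent.DSP
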