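import Pool.Agent.DSP.Defs

set_option autoImplicit false

/-! Continuous logarithms on the three-sphere. -/

open Quaternion Matrix Topology

namespace Pool.Agent.DSP

open unitInterval

/-- the unit sphere of three-space -/
private abbrev A2 := Metric.sphere (0 : E3) 1

private theorem log_sum_sq (u : A2) : ((u : E3) 0) ^ 2 + ((u : E3) 1) ^ 2 + ((u : E3) 2) ^ 2 = 1 := by
  have h : ‖(u : E3)‖ = 1 := mem_sphere_zero_iff_norm.1 u.2
  have h2 := EuclideanSpace.real_norm_sq_eq (u : E3)
  rw [h, Fin.sum_univ_three] at h2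
  linarith

private theorem log_quat_cont {X : Type*} [TopologicalSpace X] {f0 f1 f2 f3 : X → ℝ}
    (h0 : Continuous f0) (h1 : Continuous f1) (h2 : Continuous f2) (h3 : Continuous f3) :
    Continuous fun x => quat (f0 x) (f1 x) (f2 x) (f3 x) := by
  have h : (fun x => quat (f0 x) (f1 x) (f2 x) (f3 x)) = fun x =>
      f0 x • quat 1 0 0 0 + f1 x • quat 0 1 0 0 + f2 x • quat 0 0 1 0 + f3 x • quat 0 0 0 1 := by
    funext x
    have hr : f0 x = f0 x * 1 + f1 x * 0 + f2 x * 0 + f3 x * 0 := by ring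
    have hi : f1 x = f0 x * 0 + f1 x * 1 + f2 x * 0 + f3 x * 0 := by ring
    have hj : f2 x = f0 x * 0 + f1 x * 0 + f2 x * 1 + f3 x * 0 := by ring
    have hk : f3 x = f0 x * 0 + f1 x * 0 + f2 x * 0 + f3 x * 1 := by ring
    apply Quaternion.ext
    · exact hr
    · exact hi
    · exact hj
    · exact hk
  rw [h]
  fun_prop

/-- polar coordinates -/
private noncomputable def logP (p : I × A2) : S3 :=
  ⟨quat (Real.cos (Real.pi * p.1)) (Real.sin (Real.pi * p.1) * (p.2 : E3) 0)
    (Real.sin (Real.pi * p.1) * (p.2 : E3) 1) (Real.sin (Real.pi * p.1) * (p.2 : E3) 2),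
    quat_mem (by
      have h1 := log_sum_sq p.2
      have h2 := Real.sin_sq_add_cos_sq (Real.pi * p.1)
      calc _ = Real.cos (Real.pi * p.1) ^ 2 + Real.sin (Real.pi * p.1) ^ 2 *
            (((p.2 : E3) 0) ^ 2 + ((p.2 : E3) 1) ^ 2 + ((p.2 : E3) 2) ^ 2) := by ring
        _ = 1 := by rw [h1]; linarith)⟩

private theorem logP_cont : Continuous logP := by
  unfold logP
  refine Continuous.subtype_mk (log_quat_cont ?_ ?_ ?_ ?_) _ <;> fun_prop

private theorem logP_surj : Function.Surjective logP := by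
  rintro ⟨⟨r, x, y, z⟩, hq⟩
  have hn : r ^ 2 + (x ^ 2 + y ^ 2 + z ^ 2) = 1 := by
    have h1 := mem_sphere_zero_iff_norm.1 hq
    have h2 := norm_quat_sq r x y z
    unfold quat at h2
    rw [h1] at h2
    linarith
  have hr1 : -1 ≤ r := by nlinarith [sq_nonneg x, sq_nonneg y, sq_nonneg z]
  have hr2 : r ≤ 1 := by nlinarith [sq_nonneg x, sq_nonneg y, sq_nonneg z]
  have hpi := Real.pi_pos
  let t : I := ⟨Real.arccos r / Real.pi, div_nonneg (Real.arccos_nonneg r) hpi.le,
    (div_le_one hpi).2 (Real.arccos_le_pi r)⟩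
  have ht : Real.pi * (t : ℝ) = Real.arccos r := by
    show Real.pi * (Real.arccos r / Real.pi) = Real.arccos r
    field_simp
  have hcos : Real.cos (Real.pi * (t : ℝ)) = r := by rw [ht, Real.cos_arccos hr1 hr2]
  have hsin : Real.sin (Real.pi * (t : ℝ)) = √(1 - r ^ 2) := by rw [ht, Real.sin_arccos]
  set s := √(1 - r ^ 2) with hs
  have hs2 : s ^ 2 = x ^ 2 + y ^ 2 + z ^ 2 := by
    rw [hs, Real.sq_sqrt (by nlinarith [sq_nonneg x, sq_nonneg y, sq_nonneg z])]
    linarith
  by_cases hs0 : s = 0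
  · have hx : x = 0 := by nlinarith [sq_nonneg x, sq_nonneg y, sq_nonneg z]
    have hy : y = 0 := by nlinarith [sq_nonneg x, sq_nonneg y, sq_nonneg z]
    have hz : z = 0 := by nlinarith [sq_nonneg x, sq_nonneg y, sq_nonneg z]
    refine ⟨(t, ⟨!₂[1, 0, 0], ?_⟩), ?_⟩
    · rw [mem_sphere_zero_iff_norm, EuclideanSpace.norm_eq]
      simp [Fin.sum_univ_three]
    · apply Subtype.ext
      show quat (Real.cos (Real.pi * (t : ℝ))) (Real.sin (Real.pi * (t : ℝ)) * 1)
        (Real.sin (Real.pi * (t : ℝ)) * 0) (Real.sin (Real.pi * (t : ℝ)) * 0) = quat r x y z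
      rw [hcos, hsin, hs0, hx, hy, hz, zero_mul, zero_mul]
  · refine ⟨(t, ⟨!₂[x / s, y / s, z / s], ?_⟩), ?_⟩
    · rw [mem_sphere_zero_iff_norm, EuclideanSpace.norm_eq]
      simp only [Fin.sum_univ_three, Real.norm_eq_abs, sq_abs]
      have : (x / s) ^ 2 + (y / s) ^ 2 + (z / s) ^ 2 = 1 := by
        field_simp
        linarith
      simpa using this
    · apply Subtype.ext
      show quat (Real.cos (Real.pi * (t : ℝ))) (Real.sin (Real.pi * (t : ℝ)) * (x / s))
        (Real.sin (Real.pi * (t : ℝ)) * (y / s)) (Real.sin (Real.pi * (t : ℝ)) * (z / s)) =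
          quat r x y z
      rw [hcos, hsin, mul_div_cancel₀ _ hs0, mul_div_cancel₀ _ hs0, mul_div_cancel₀ _ hs0]

/-- Every continuous map from the unit quaternions to the circle has a continuous argument.
Proof: polar coordinates `P (t, u) = cos (π t) + sin (π t) u`, `t ∈ [0,1]`, `u` in the unit sphere
`A` of the imaginary quaternions (or of `E3`): `P` is continuous and onto `S3`, a closed map (compact
source), hence a quotient map.  Lift the homotopy `(t, u) ↦ L (P (t, u))` through the covering map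
`Circle.exp` (`Circle.isCoveringMap_exp`; see `Mathlib/Topology/Homotopy/Lifting.lean`) starting
from the constant `L 1` at `t = 0`; at `t = 1` the lift takes values in a discrete set
(`Circle.exp θ = L (-1)`) and `A` is preconnected (`isPreconnected_sphere`), so it is constant
there; so the lift is constant on the fibres of `P` and descends. -/
theorem exists_arg (L : S3 → Circle) (hL : Continuous L) :
    ∃ θ : S3 → ℝ, Continuous θ ∧ ∀ q, Circle.exp (θ q) = L q := by
  have hquot : IsQuotientMap logP :=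
    (logP_cont.isClosedMap).isQuotientMap logP_cont logP_surj
  have hconn : PreconnectedSpace A2 := by
    refine isPreconnected_iff_preconnectedSpace.1 (isPreconnected_sphere ?_ 0 1)
    rw [← Module.finrank_eq_rank]
    simp
  -- the homotopy and its lift
  have hsurj : Function.Surjective Circle.exp := Circle.exp_surjective
  obtain ⟨θ0, hθ0⟩ := hsurj (L 1)
  let H : C(I × A2, Circle) := ⟨fun p => L (logP p), hL.comp logP_cont⟩
  have hP0 : ∀ a : A2, logP (0, a) = 1 := by
    intro a
    apply Subtype.ext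
    show quat (Real.cos (Real.pi * 0)) (Real.sin (Real.pi * 0) * _) (Real.sin (Real.pi * 0) * _)
      (Real.sin (Real.pi * 0) * _) = 1
    rw [mul_zero, Real.cos_zero, Real.sin_zero, zero_mul, zero_mul, zero_mul]
    rfl
  have hP1 : ∀ a : A2, logP (1, a) = -1 := by
    intro a
    apply Subtype.ext
    show quat (Real.cos (Real.pi * 1)) (Real.sin (Real.pi * 1) * _) (Real.sin (Real.pi * 1) * _)
      (Real.sin (Real.pi * 1) * _) = -1
    rw [mul_one, Real.cos_pi, Real.sin_pi, zero_mul, zero_mul, zero_mul]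
    apply Quaternion.ext
    · rfl
    · exact neg_zero.symm
    · exact neg_zero.symm
    · exact neg_zero.symm
  have hH0 : ∀ a, H (0, a) = Circle.exp ((ContinuousMap.const A2 θ0) a) := by
    intro a
    show L (logP (0, a)) = Circle.exp θ0
    rw [hP0, hθ0]
  let Θ : C(I × A2, ℝ) := Circle.isCoveringMap_exp.liftHomotopy H (ContinuousMap.const A2 θ0) hH0
  have hΘ : ∀ p, Circle.exp (Θ p) = L (logP p) := fun p =>
    congrFun (Circle.isCoveringMap_exp.liftHomotopy_lifts H (ContinuousMap.const A2 θ0) hH0) p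
  have hΘ0 : ∀ a, Θ (0, a) = θ0 :=
    Circle.isCoveringMap_exp.liftHomotopy_zero H (ContinuousMap.const A2 θ0) hH0
  have hΘ1 : ∀ a a', Θ (1, a) = Θ (1, a') := by
    refine Circle.isCoveringMap_exp.const_of_comp (g := fun a : A2 => Θ (1, a)) (by fun_prop) ?_
    intro a a'
    rw [hΘ, hΘ, hP1, hP1]
  -- the lift is constant on the fibres
  have hfib : ∀ p p', logP p = logP p' → Θ p = Θ p' := by
    rintro ⟨t, u⟩ ⟨t', u'⟩ h
    have h0 := congrArg (fun q : S3 => (q : ℍ[ℝ]).re) h
    have h1 := congrArg (fun q : S3 => (q : ℍ[ℝ]).imI) h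
    have h2 := congrArg (fun q : S3 => (q : ℍ[ℝ]).imJ) h
    have h3 := congrArg (fun q : S3 => (q : ℍ[ℝ]).imK) h
    change Real.cos (Real.pi * t) = Real.cos (Real.pi * t') at h0
    change Real.sin (Real.pi * t) * (u : E3) 0 = Real.sin (Real.pi * t') * (u' : E3) 0 at h1
    change Real.sin (Real.pi * t) * (u : E3) 1 = Real.sin (Real.pi * t') * (u' : E3) 1 at h2
    change Real.sin (Real.pi * t) * (u : E3) 2 = Real.sin (Real.pi * t') * (u' : E3) 2 at h3
    have hpi := Real.pi_pos
    have hmem : ∀ s : I, Real.pi * (s : ℝ) ∈ Set.Icc 0 Real.pi := fun s =>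
      ⟨mul_nonneg hpi.le s.2.1, by nlinarith [s.2.2]⟩
    have ht := Real.injOn_cos (hmem t) (hmem t') h0
    have ht' : t = t' := Subtype.ext (mul_left_cancel₀ hpi.ne' ht)
    subst ht'
    by_cases hs : Real.sin (Real.pi * (t : ℝ)) = 0
    · by_cases h0' : (t : ℝ) = 0
      · have h4 : t = 0 := Subtype.ext h0'
        rw [h4, hΘ0, hΘ0]
      · by_cases h1' : (t : ℝ) = 1
        · have h4 : t = 1 := Subtype.ext h1'
          rw [h4, hΘ1]
        · exfalso
          have h5 : 0 < (t : ℝ) := lt_of_le_of_ne t.2.1 (Ne.symm h0')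
          have h6 : (t : ℝ) < 1 := lt_of_le_of_ne t.2.2 h1'
          have h7 := Real.sin_pos_of_pos_of_lt_pi (mul_pos hpi h5) (by nlinarith)
          exact h7.ne' hs
    · have h4 : u = u' := by
        apply Subtype.ext
        ext i
        fin_cases i
        · exact mul_left_cancel₀ hs h1
        · exact mul_left_cancel₀ hs h2
        · exact mul_left_cancel₀ hs h3
      rw [h4]
  -- descend
  choose τ hτ using logP_surj
  refine ⟨fun q => Θ (τ q), ?_, ?_⟩
  · rw [hquot.continuous_iff]
    have h : (fun q => Θ (τ q)) ∘ logP = Θ := by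
      funext p
      exact hfib _ _ (hτ (logP p))
    rw [h]
    exact Θ.continuous
  · intro q
    rw [hΘ, hτ]

end Pool.Agent.DSP
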