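import Pool.Agent.DSP.Lift
import Pool.Agent.DSP.Log

set_option autoImplicit false

/-! A map equivariant under the four-group has no spinor lift. -/

open Quaternion Matrix Topology

namespace Pool.Agent.DSP

theorem preconnectedSpace_S3 : PreconnectedSpace S3 := by
  apply isPreconnected_iff_preconnectedSpace.mp
  apply isPreconnected_sphere
  rw [Quaternion.rank_eq_four]
  norm_num

private theorem nl_neg_mul (q p : S3) : -q * p = -(q * p) := Subtype.ext (neg_mul _ _)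

private theorem nl_mul_neg (q p : S3) : q * -p = -(q * p) := Subtype.ext (mul_neg _ _)

private theorem nl_mul_sq1 (q : S3) : q * qi * qi = -q := by
  rw [mul_assoc]
  have h : qi * qi = -1 := by
    apply Subtype.ext
    show quat 0 1 0 0 * quat 0 1 0 0 = -(1 : ℍ[ℝ])
    ext <;> simp [quat]
  rw [h, nl_mul_neg, mul_one]

private theorem nl_mul_sq2 (q : S3) : q * qj * qj = -q := by
  rw [mul_assoc]
  have h : qj * qj = -1 := by
    apply Subtype.ext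
    show quat 0 0 1 0 * quat 0 0 1 0 = -(1 : ℍ[ℝ])
    ext <;> simp [quat]
  rw [h, nl_mul_neg, mul_one]

private theorem nl_mul_anti (q : S3) : q * qj * qi = -(q * qi * qj) := by
  rw [mul_assoc, mul_assoc, ← nl_mul_neg]
  congr 1
  apply Subtype.ext
  show quat 0 0 1 0 * quat 0 1 0 0 = -(quat 0 1 0 0 * quat 0 0 1 0)
  ext <;> simp [quat]

/-- A continuous nowhere zero function has a continuous argument. -/
private theorem nl_arg {l : S3 → ℂ} (hl : Continuous l) (h0 : ∀ q, l q ≠ 0)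
    (he : ∀ q, l (-q) = l q) :
    ∃ θ : S3 → ℝ, Continuous θ ∧ (∀ q, θ (-q) = θ q) ∧
      ∀ q, ((Circle.exp (θ q) : Circle) : ℂ) * ((‖l q‖ : ℝ) : ℂ) = l q := by
  have := preconnectedSpace_S3
  have hn : ∀ q, ((‖l q‖ : ℝ) : ℂ) ≠ 0 := fun q => by
    simpa using h0 q
  have hmem : ∀ q, l q / ((‖l q‖ : ℝ) : ℂ) ∈ Submonoid.unitSphere ℂ := by
    intro q
    change l q / ((‖l q‖ : ℝ) : ℂ) ∈ Metric.sphere (0 : ℂ) 1
    rw [mem_sphere_zero_iff_norm]
    simp [h0 q]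
  obtain ⟨θ, hθ, hθL⟩ := exists_arg (fun q => (⟨l q / ((‖l q‖ : ℝ) : ℂ), hmem q⟩ : Circle))
    (by
      refine Continuous.subtype_mk ?_ _
      exact hl.div (Complex.continuous_ofReal.comp hl.norm) hn)
  have hval : ∀ q, ((Circle.exp (θ q) : Circle) : ℂ) = l q / ((‖l q‖ : ℝ) : ℂ) := by
    intro q
    rw [hθL q]
  refine ⟨θ, hθ, ?_, ?_⟩
  · have hd : ∀ q, Circle.exp (θ (-q) - θ q) = 1 := by
      intro q
      rw [Circle.exp_sub, hθL, hθL]
      simp only [he q, div_self']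
    have hc : Continuous fun q : S3 => θ (-q) - θ q :=
      (hθ.comp continuous_neg).sub hθ
    have hk := Circle.isCoveringMap_exp.const_of_comp hc (fun a a' => by
      show Circle.exp (θ (-a) - θ a) = Circle.exp (θ (-a') - θ a')
      rw [hd, hd])
    intro q
    have h1 := hk q (-q)
    simp only [neg_neg] at h1
    linarith
  · intro q
    rw [hval q, div_mul_cancel₀ _ (hn q)]

/-- The heart of the matter.  Proof: let `ψ` be the lift, `σ₁, σ₂` the Pauli matrices of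
`isSpin_D1`, `isSpin_D2`.  By `spin_unique`, `ψ (q * qi) = l₁ q • σ₁ ψ q`, `ψ (q * qj) = l₂ q • σ₂ ψ q`
with continuous nowhere zero `l₁, l₂ : S3 → ℂ`, both even.  Since `q * qj * qi = - (q * qi * qj)`,
`ψ` is even and `σ₁ σ₂ = - σ₂ σ₁`, one gets `l₂ (q * qi) * l₁ q = - l₁ (q * qj) * l₂ q`.
Write `l_k q / |l_k q| = Circle.exp (θ_k q)` (`exists_arg`); `θ_k (-q) - θ_k q` is a constant integer
multiple of `2π` (connectedness) and its own negative, so `θ_k` is even; then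
`θ₂ (q * qi) + θ₁ q - θ₁ (q * qj) - θ₂ q` is a constant `κ` with `Circle.exp κ = -1`, so `κ ≠ 0`;
adding the relations for `q, q * qi, q * qj, q * qi * qj` gives `0 = 4 κ`. -/
theorem no_lift {F : S3 → E3} (hF : Continuous F) (hne : ∀ q, F q ≠ 0)
    (h1 : ∀ q, F (q * qi) = D1 (F q)) (h2 : ∀ q, F (q * qj) = D2 (F q)) : ¬ HasLift F := by
  have := preconnectedSpace_S3
  rintro ⟨ψ, hψ, hS, hev⟩
  set A : Matrix (Fin 2) (Fin 2) ℂ := !![(0 : ℂ), 1; 1, 0] with hA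
  set B : Matrix (Fin 2) (Fin 2) ℂ := !![(0 : ℂ), -Complex.I; Complex.I, 0] with hB
  have hAB : ∀ φ : Spn, A *ᵥ (B *ᵥ φ) = -(B *ᵥ (A *ᵥ φ)) := by
    intro φ
    rw [Matrix.mulVec_mulVec, Matrix.mulVec_mulVec, ← Matrix.neg_mulVec]
    congr 1
    ext i j
    fin_cases i <;> fin_cases j <;> simp [hA, hB, Matrix.mul_apply, Fin.sum_univ_two]
  have hSA : ∀ q, IsSpin (F (q * qi)) (A *ᵥ ψ q) := fun q => by
    rw [h1 q]; exact isSpin_D1 (hS q)
  have hSB : ∀ q, IsSpin (F (q * qj)) (B *ᵥ ψ q) := fun q => by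
    rw [h2 q]; exact isSpin_D2 (hS q)
  have hcA : Continuous fun q => A *ᵥ ψ q := Continuous.matrix_mulVec continuous_const hψ
  have hcB : Continuous fun q => B *ᵥ ψ q := Continuous.matrix_mulVec continuous_const hψ
  have hci : Continuous fun q : S3 => ψ (q * qi) := hψ.comp (continuous_mul_const qi)
  have hcj : Continuous fun q : S3 => ψ (q * qj) := hψ.comp (continuous_mul_const qj)
  have key : ∀ (φ₁ φ₂ : S3 → Spn) (p : S3 → S3), Continuous φ₁ → Continuous φ₂ →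
      (∀ q, IsSpin (F (p q)) (φ₁ q)) → (∀ q, IsSpin (F (p q)) (φ₂ q)) →
      (∀ q, φ₁ (-q) = φ₁ q) → (∀ q, φ₂ (-q) = φ₂ q) →
      ∃ l : S3 → ℂ, Continuous l ∧ (∀ q, l q ≠ 0) ∧ (∀ q, l (-q) = l q) ∧
        ∀ q, φ₂ q = l q • φ₁ q := by
    intro φ₁ φ₂ p hc1 hc2 hs1 hs2 he1 he2
    have heq : ∀ q, φ₂ q = ((star (φ₁ q) ⬝ᵥ φ₂ q) / (star (φ₁ q) ⬝ᵥ φ₁ q)) • φ₁ q := fun q =>
      spin_unique (hne _) (hs1 q) (hs2 q)
    refine ⟨fun q => (star (φ₁ q) ⬝ᵥ φ₂ q) / (star (φ₁ q) ⬝ᵥ φ₁ q), ?_, ?_, ?_, heq⟩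
    · refine Continuous.div ?_ ?_ (fun q => star_dot_self_ne (hs1 q).1)
      · exact Continuous.dotProduct hc1.star hc2
      · exact Continuous.dotProduct hc1.star hc1
    · intro q h0
      apply (hs2 q).1
      have := heq q
      simp only at h0
      rw [h0, zero_smul] at this
      exact this
    · intro q
      simp only [he1, he2]
  obtain ⟨l₁, hl1c, hl10, hl1e, hl1⟩ := key (fun q => A *ᵥ ψ q) (fun q => ψ (q * qi))
    (fun q => q * qi) hcA hci hSA (fun q => hS _) (fun q => by simp only [hev])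
    (fun q => by simp only [nl_neg_mul, hev])
  obtain ⟨l₂, hl2c, hl20, hl2e, hl2⟩ := key (fun q => B *ᵥ ψ q) (fun q => ψ (q * qj))
    (fun q => q * qj) hcB hcj hSB (fun q => hS _) (fun q => by simp only [hev])
    (fun q => by simp only [nl_neg_mul, hev])
  have hrel : ∀ q, l₂ (q * qi) * l₁ q = -(l₁ (q * qj) * l₂ q) := by
    intro q
    have e1 : ψ (q * qi * qj) = (l₂ (q * qi) * l₁ q) • (B *ᵥ (A *ᵥ ψ q)) := by
      rw [hl2 (q * qi), hl1 q, Matrix.mulVec_smul, smul_smul]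
    have e2 : ψ (q * qj * qi) = (l₁ (q * qj) * l₂ q) • (A *ᵥ (B *ᵥ ψ q)) := by
      rw [hl1 (q * qj), hl2 q, Matrix.mulVec_smul, smul_smul]
    rw [nl_mul_anti, hev, e1, hAB, smul_neg, ← neg_smul] at e2
    have hne' : B *ᵥ (A *ᵥ ψ q) ≠ 0 := by
      intro h0
      rw [h0, smul_zero] at e1
      exact (hS _).1 e1
    exact smul_left_injective ℂ hne' e2
  obtain ⟨θ₁, hθ1c, hθ1e, hθ1⟩ := nl_arg hl1c hl10 hl1e
  obtain ⟨θ₂, hθ2c, hθ2e, hθ2⟩ := nl_arg hl2c hl20 hl2e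
  have hexp : ∀ q, Circle.exp (θ₂ (q * qi) + θ₁ q - θ₁ (q * qj) - θ₂ q) = -1 := by
    intro q
    have hr := hrel q
    have hnorm : ‖l₂ (q * qi)‖ * ‖l₁ q‖ = ‖l₁ (q * qj)‖ * ‖l₂ q‖ := by
      have := congrArg norm hr
      rwa [norm_neg, norm_mul, norm_mul] at this
    have hnorm' : ((‖l₂ (q * qi)‖ : ℝ) : ℂ) * ((‖l₁ q‖ : ℝ) : ℂ)
        = ((‖l₁ (q * qj)‖ : ℝ) : ℂ) * ((‖l₂ q‖ : ℝ) : ℂ) := by
      exact_mod_cast hnorm
    have hN : ((‖l₁ (q * qj)‖ : ℝ) : ℂ) * ((‖l₂ q‖ : ℝ) : ℂ) ≠ 0 := by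
      refine mul_ne_zero ?_ ?_
      · simpa using hl10 (q * qj)
      · simpa using hl20 q
    rw [← hθ2 (q * qi), ← hθ1 q, ← hθ1 (q * qj), ← hθ2 q] at hr
    have h3 : ((Circle.exp (θ₂ (q * qi)) : Circle) : ℂ) * ((Circle.exp (θ₁ q) : Circle) : ℂ) =
        -(((Circle.exp (θ₁ (q * qj)) : Circle) : ℂ) * ((Circle.exp (θ₂ q) : Circle) : ℂ)) := by
      apply mul_right_cancel₀ hN
      rw [← hnorm']
      calc _ = ((Circle.exp (θ₂ (q * qi)) : Circle) : ℂ) * ((‖l₂ (q * qi)‖ : ℝ) : ℂ) *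
            (((Circle.exp (θ₁ q) : Circle) : ℂ) * ((‖l₁ q‖ : ℝ) : ℂ)) := by ring
        _ = -((((Circle.exp (θ₁ (q * qj)) : Circle) : ℂ) * ((‖l₁ (q * qj)‖ : ℝ) : ℂ)) *
            (((Circle.exp (θ₂ q) : Circle) : ℂ) * ((‖l₂ q‖ : ℝ) : ℂ))) := hr
        _ = -(((Circle.exp (θ₁ (q * qj)) : Circle) : ℂ) * ((Circle.exp (θ₂ q) : Circle) : ℂ)) *
            (((‖l₁ (q * qj)‖ : ℝ) : ℂ) * ((‖l₂ q‖ : ℝ) : ℂ)) := by ring
        _ = _ := by rw [hnorm']
    have h4 : Circle.exp (θ₂ (q * qi) + θ₁ q) = -Circle.exp (θ₁ (q * qj) + θ₂ q) := by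
      rw [Circle.exp_add, Circle.exp_add]
      apply Circle.ext
      rw [Circle.coe_neg, Circle.coe_mul, Circle.coe_mul]
      exact h3
    have h5 : θ₂ (q * qi) + θ₁ q - θ₁ (q * qj) - θ₂ q =
        (θ₂ (q * qi) + θ₁ q) - (θ₁ (q * qj) + θ₂ q) := by ring
    rw [h5, Circle.exp_sub, h4, div_eq_iff_eq_mul]
    apply Circle.ext
    rw [Circle.coe_mul, Circle.coe_neg, Circle.coe_neg, Circle.coe_one, neg_one_mul]
  have hcont : Continuous fun q : S3 => θ₂ (q * qi) + θ₁ q - θ₁ (q * qj) - θ₂ q :=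
    (((hθ2c.comp (continuous_mul_const qi)).add hθ1c).sub
      (hθ1c.comp (continuous_mul_const qj))).sub hθ2c
  have hconst := Circle.isCoveringMap_exp.const_of_comp hcont (fun a a' => by
    show Circle.exp (θ₂ (a * qi) + θ₁ a - θ₁ (a * qj) - θ₂ a) =
      Circle.exp (θ₂ (a' * qi) + θ₁ a' - θ₁ (a' * qj) - θ₂ a')
    rw [hexp, hexp])
  have c1 := hconst 1 (1 * qi)
  have c2 := hconst 1 (1 * qj)
  have c3 := hconst 1 (1 * qi * qj)
  simp only [nl_mul_sq1, nl_mul_sq2, nl_mul_anti, hθ1e, hθ2e] at c1 c2 c3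
  have e4 : θ₂ (-1 * qj) = θ₂ (1 * qj) := by
    rw [nl_neg_mul, hθ2e]
  rw [e4] at c3
  have hz : θ₂ (1 * qi) + θ₁ 1 - θ₁ (1 * qj) - θ₂ 1 = 0 := by linarith
  have := hexp 1
  rw [hz, Circle.exp_zero] at this
  have h6 : (1 : ℂ) = -1 := by simpa using congrArg (fun z : Circle => (z : ℂ)) this
  norm_num at h6

end Pool.Agent.DSP
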