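import Pool.Agent.DSP.Conf
import Pool.Agent.DSP.Ext
import Pool.Agent.DSP.NoLift

set_option autoImplicit false

/-! The core theorem: level copies of the disphenoid `tv a b c`. -/

open Quaternion Matrix Topology

namespace Pool.Agent.DSP

theorem norm_tv (a b c : ℝ) (j : Fin 4) : ‖tv a b c j‖ = ‖tv a b c 0‖ := by
  fin_cases j <;> simp [tv, EuclideanSpace.norm_eq, Fin.sum_univ_three]

theorem rot_zero (q : S3) : rot (q : ℍ[ℝ]) 0 = 0 := by
  rw [← norm_eq_zero, norm_rot, norm_zero]

theorem rot_sub (q : S3) (v w : E3) :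
    rot (q : ℍ[ℝ]) (v - w) = rot (q : ℍ[ℝ]) v - rot (q : ℍ[ℝ]) w := by
  have h := rot_add (q : ℍ[ℝ]) (v - w) w
  rw [sub_add_cancel] at h
  rw [h, add_sub_cancel_right]

theorem core {a b c : ℝ} {U : Set E3} (hUc : IsConnected U)
    (hUb : Bornology.IsBounded U) {f : E3 → ℝ} (hf : ContinuousOn f (closure U))
    (hf0 : ∀ x ∈ closure U, 0 ≤ f x) (hff : ∀ x ∈ frontier U, f x = 0) {y : E3}
    (hy : Metric.closedBall y (2 * ‖tv a b c 0‖) ⊆ U) :
    ∃ (x : E3) (q : S3), (∀ j, x + rot (q : ℍ[ℝ]) (tv a b c j) ∈ closure U) ∧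
      ∀ i j, f (x + rot (q : ℍ[ℝ]) (tv a b c i)) = f (x + rot (q : ℍ[ℝ]) (tv a b c j)) := by
  by_contra hNC
  push Not at hNC
  obtain ⟨g, hgc, hgf, hgn⟩ := exists_ext hf hff hUc.nonempty
  -- vertices of the sliding configuration
  have hvert : ∀ (x : E3) (s : ℝ) (q : S3) (j : Fin 4),
      x + rot (q : ℍ[ℝ]) (tv a b c j - s • tv a b c 0) =
        (x - s • rot (q : ℍ[ℝ]) (tv a b c 0)) + rot (q : ℍ[ℝ]) (tv a b c j) := by
    intro x s q j
    rw [rot_sub, rot_smul]
    abel
  have hNC' : ∀ (x : E3) (s : ℝ) (q : S3),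
      (∀ j, x + rot (q : ℍ[ℝ]) (tv a b c j - s • tv a b c 0) ∈ closure U) →
      conf a b c g x s q ≠ 0 := by
    intro x s q hmem h0
    rw [conf_eq_zero_iff] at h0
    obtain ⟨i, j, hij⟩ := hNC (x - s • rot (q : ℍ[ℝ]) (tv a b c 0)) q (by
      intro j
      rw [← hvert]
      exact hmem j)
    apply hij
    rw [← hvert, ← hvert, ← hgf _ (hmem i), ← hgf _ (hmem j)]
    exact h0 i j
  set C : Set (E3 × ℝ) := (closure U ×ˢ {1}) ∪ ({y} ×ˢ Set.Icc 0 1) with hC
  have hyU : y ∈ U := hy (Metric.mem_closedBall_self (by positivity))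
  have hyc : y ∈ closure U := subset_closure hyU
  have hCp : IsPreconnected C := by
    apply IsPreconnected.union (y, (1 : ℝ))
    · exact ⟨hyc, rfl⟩
    · exact ⟨rfl, by norm_num⟩
    · exact hUc.isPreconnected.closure.prod isPreconnected_singleton
    · exact isPreconnected_singleton.prod isPreconnected_Icc
  have hzero : ∀ (x : E3) (q : S3), x + rot (q : ℍ[ℝ]) (tv a b c 0 - (1 : ℝ) • tv a b c 0) = x := by
    intro x q
    rw [one_smul, sub_self, rot_zero, add_zero]
  have hne : ∀ t ∈ C, ∀ q : S3, conf a b c g t.1 t.2 q ≠ 0 := by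
    rintro ⟨x, s⟩ (⟨hx, hs⟩ | ⟨hx, hs⟩) q
    · have hs' : s = 1 := hs
      subst hs'
      intro h0
      refine hNC' x 1 q ?_ h0
      rw [conf_eq_zero_iff] at h0
      intro j
      by_contra hj
      have h1 := hgn _ hj
      have h2 := h0 j 0
      rw [hzero, hgf x hx] at h2
      have h3 := hf0 x hx
      have h4 : f x < 0 := h2 ▸ h1
      linarith
    · have hx' : x = y := hx
      subst hx'
      obtain ⟨hs0, hs1⟩ := hs
      have hs0' : 0 ≤ s := hs0
      have hs1' : s ≤ 1 := hs1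
      apply hNC'
      intro j
      apply subset_closure
      apply hy
      rw [Metric.mem_closedBall, dist_self_add_left, norm_rot]
      refine (norm_sub_le _ _).trans ?_
      rw [norm_tv, norm_smul, Real.norm_of_nonneg hs0']
      nlinarith [norm_nonneg (tv a b c 0)]
  have heven : ∀ (t : E3 × ℝ) (q : S3), conf a b c g t.1 t.2 (-q) = conf a b c g t.1 t.2 q :=
    fun t q => conf_even a b c g t.1 t.2 q
  -- the maximum
  have hcomp : IsCompact (closure U) := hUb.isCompact_closure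
  obtain ⟨x0, hx0, hmax⟩ := hcomp.exists_isMaxOn ⟨y, hyc⟩ hgc.continuousOn
  have hmax' : ∀ x, g x ≤ g x0 := by
    intro x
    by_cases hx : x ∈ closure U
    · exact hmax hx
    · have h1 := hgn x hx
      have h2 := hf0 x0 hx0
      rw [← hgf x0 hx0] at h2
      linarith
  have hlift0 : HasLift (fun q => conf a b c g x0 1 q) := by
    apply hasLift_of_pos (n := (!₂[(1 : ℝ), 1, 1] : E3))
    · have h := continuous_conf a b c g hgc
      exact h.comp (by fun_prop : Continuous fun q : S3 => (((x0, (1 : ℝ)) : E3 × ℝ), q))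
    · intro q
      exact conf_even a b c g x0 1 q
    · intro q
      apply conf_pos
      · intro j
        rw [hzero]
        exact hmax' _
      · exact hne (x0, 1) (Or.inl ⟨hx0, rfl⟩) q
  have hlift1 : HasLift (fun q => conf a b c g y 0 q) :=
    hasLift_of_preconnected hCp (fun t q => conf a b c g t.1 t.2 q) (continuous_conf a b c g hgc)
      hne heven (t₀ := (x0, 1)) (t₁ := (y, 0)) (Or.inl ⟨hx0, rfl⟩) (Or.inr ⟨rfl, by norm_num⟩)
      hlift0
  refine no_lift (F := fun q => conf a b c g y 0 q) ?_ ?_ ?_ ?_ hlift1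
  · have h := continuous_conf a b c g hgc
    exact h.comp (by fun_prop : Continuous fun q : S3 => (((y, (0 : ℝ)) : E3 × ℝ), q))
  · intro q
    exact hne (y, 0) (Or.inr ⟨rfl, by norm_num⟩) q
  · intro q
    exact conf_mul_qi a b c g y q
  · intro q
    exact conf_mul_qj a b c g y q

end Pool.Agent.DSP
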