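import Mathlib

set_option autoImplicit false

/-! Disphenoids (MP_54add4_co): definitions.  Unit quaternions, the rotation action on `ℝ³`,
Pauli matrices, spinor lifts, the disphenoid with half edges `a, b, c`. -/

open Quaternion Matrix

namespace Pool.Agent.DSP

/-- Euclidean three-space. -/
abbrev E3 := EuclideanSpace ℝ (Fin 3)

/-- The unit sphere of the quaternions (a topological group with a negation). -/
abbrev S3 := Metric.sphere (0 : ℍ[ℝ]) 1

/-- Two-component complex vectors. -/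
abbrev Spn := Fin 2 → ℂ

/-- The quaternion with the given components. -/
def quat (r x y z : ℝ) : ℍ[ℝ] := ⟨r, x, y, z⟩

theorem norm_quat_sq (r x y z : ℝ) : ‖quat r x y z‖ * ‖quat r x y z‖ =
    r ^ 2 + x ^ 2 + y ^ 2 + z ^ 2 := by
  rw [← Quaternion.normSq_eq_norm_mul_self, Quaternion.normSq_def']; rfl

theorem quat_mem {r x y z : ℝ} (h : r ^ 2 + x ^ 2 + y ^ 2 + z ^ 2 = 1) :
    quat r x y z ∈ Metric.sphere (0 : ℍ[ℝ]) 1 := by
  rw [mem_sphere_zero_iff_norm]
  have h1 := norm_quat_sq r x y z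
  nlinarith [norm_nonneg (quat r x y z)]

/-- The unit quaternion `i`. -/
noncomputable def qi : S3 := ⟨quat 0 1 0 0, quat_mem (by norm_num)⟩

/-- The unit quaternion `j`. -/
noncomputable def qj : S3 := ⟨quat 0 0 1 0, quat_mem (by norm_num)⟩

/-- The half turn about the first axis. -/
noncomputable def D1 (v : E3) : E3 := !₂[v 0, -v 1, -v 2]

/-- The half turn about the second axis. -/
noncomputable def D2 (v : E3) : E3 := !₂[-v 0, v 1, -v 2]

/-- The rotation `v ↦ q v q⁻¹` of three-space attached to a unit quaternion `q` (a polynomial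
formula, meaningful for all quaternions). -/
noncomputable def rot (q : ℍ[ℝ]) (v : E3) : E3 :=
  !₂[(q * quat 0 (v 0) (v 1) (v 2) * star q).imI, (q * quat 0 (v 0) (v 1) (v 2) * star q).imJ,
    (q * quat 0 (v 0) (v 1) (v 2) * star q).imK]

/-- The Pauli matrix of a vector. -/
noncomputable def sig (v : E3) : Matrix (Fin 2) (Fin 2) ℂ :=
  !![((v 2 : ℝ) : ℂ), ((v 0 : ℝ) : ℂ) - ((v 1 : ℝ) : ℂ) * Complex.I;
    ((v 0 : ℝ) : ℂ) + ((v 1 : ℝ) : ℂ) * Complex.I, -((v 2 : ℝ) : ℂ)]

/-- `ψ` is a (nonzero) spinor of `v`: an eigenvector of the Pauli matrix of `v` for `+‖v‖`. -/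
def IsSpin (v : E3) (ψ : Spn) : Prop := ψ ≠ 0 ∧ sig v *ᵥ ψ = ((‖v‖ : ℝ) : ℂ) • ψ

/-- `F` has a continuous even spinor lift. -/
def HasLift (F : S3 → E3) : Prop :=
  ∃ ψ : S3 → Spn, Continuous ψ ∧ (∀ q, IsSpin (F q) (ψ q)) ∧ ∀ q, ψ (-q) = ψ q

/-- The four vertices of the disphenoid inscribed in the box with half edges `a, b, c`. -/
noncomputable def tv (a b c : ℝ) : Fin 4 → E3 :=
  ![!₂[a, b, c], !₂[a, -b, -c], !₂[-a, b, -c], !₂[-a, -b, c]]

/-- The configuration map: the values of `g` at the four vertices `x + q (t_j - s t_0) q⁻¹`,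
as a vector of `ℝ³` (it vanishes iff the four values are equal). -/
noncomputable def conf (a b c : ℝ) (g : E3 → ℝ) (x : E3) (s : ℝ) (q : S3) : E3 :=
  ∑ j, g (x + rot (q : ℍ[ℝ]) (tv a b c j - s • tv a b c 0)) • tv 1 1 1 j

end Pool.Agent.DSP
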