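import Pool.Agent.DSP.Defs

set_option autoImplicit false

/-! A disphenoid in standard position. -/

open Quaternion Matrix Topology

namespace Pool.Agent.DSP

private theorem Pos_inner {u v : E3} (h : ‖u + v‖ = ‖u - v‖) : inner ℝ u v = 0 := by
  have e1 := norm_add_mul_self_real u v
  have e2 := norm_sub_mul_self_real u v
  rw [h] at e1
  linarith

private theorem Pos_ne {S : Fin 4 → E3} (hS : AffineIndependent ℝ S) (w : Fin 4 → ℝ)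
    (h0 : w 0 ≠ 0) (hw : ∑ i, w i = 0) : ∑ i, w i • S i ≠ 0 := by
  intro h
  exact h0 (affineIndependent_iff.1 hS Finset.univ w hw h 0 (Finset.mem_univ _))

/-- A tetrahedron with equal opposite edges is, up to an isometry, `tv a b c`.
Proof: `m` = the centroid, `p = (S 0 + S 1 - S 2 - S 3)/4`, `q = (S 0 - S 1 + S 2 - S 3)/4`,
`r = (S 0 - S 1 - S 2 + S 3)/4`; `S 0 = m + p + q + r`, `S 1 = m + p - q - r`, `S 2 = m - p + q - r`,
`S 3 = m - p - q + r`; equal opposite edges give `⟪q, r⟫ = ⟪p, r⟫ = ⟪p, q⟫ = 0`; affine independence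
gives `p, q, r ≠ 0`; `Q = repr.symm` of the orthonormal basis `p/‖p‖, q/‖q‖, r/‖r‖`. -/
theorem exists_position {S : Fin 4 → E3} (hS : AffineIndependent ℝ S)
    (h1 : dist (S 0) (S 1) = dist (S 2) (S 3)) (h2 : dist (S 0) (S 2) = dist (S 1) (S 3))
    (h3 : dist (S 0) (S 3) = dist (S 1) (S 2)) :
    ∃ (a b c : ℝ) (m : E3) (Q : E3 ≃ₗᵢ[ℝ] E3), 0 < a ∧ 0 < b ∧ 0 < c ∧
      ∀ j, S j = m + Q (tv a b c j) := by
  obtain ⟨m, hm⟩ : ∃ m : E3, m = (1 / 4 : ℝ) • (S 0 + S 1 + S 2 + S 3) := ⟨_, rfl⟩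
  obtain ⟨p, hp⟩ : ∃ p : E3, p = (1 / 4 : ℝ) • (S 0 + S 1 - S 2 - S 3) := ⟨_, rfl⟩
  obtain ⟨q, hq⟩ : ∃ q : E3, q = (1 / 4 : ℝ) • (S 0 - S 1 + S 2 - S 3) := ⟨_, rfl⟩
  obtain ⟨r, hr⟩ : ∃ r : E3, r = (1 / 4 : ℝ) • (S 0 - S 1 - S 2 + S 3) := ⟨_, rfl⟩
  have hp0 : p ≠ 0 := by
    intro h
    refine Pos_ne hS ![1 / 4, 1 / 4, -1 / 4, -1 / 4] (by norm_num) ?_ ?_
    · simp [Fin.sum_univ_four]; norm_num
    · rw [← h, hp, Fin.sum_univ_four]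
      simp only [Matrix.cons_val]
      module
  have hq0 : q ≠ 0 := by
    intro h
    refine Pos_ne hS ![1 / 4, -1 / 4, 1 / 4, -1 / 4] (by norm_num) ?_ ?_
    · simp [Fin.sum_univ_four]; norm_num
    · rw [← h, hq, Fin.sum_univ_four]
      simp only [Matrix.cons_val]
      module
  have hr0 : r ≠ 0 := by
    intro h
    refine Pos_ne hS ![1 / 4, -1 / 4, -1 / 4, 1 / 4] (by norm_num) ?_ ?_
    · simp [Fin.sum_univ_four]; norm_num
    · rw [← h, hr, Fin.sum_univ_four]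
      simp only [Matrix.cons_val]
      module
  have hqr : inner ℝ q r = 0 := by
    apply Pos_inner
    have e1 : q + r = (1 / 2 : ℝ) • (S 0 - S 1) := by rw [hq, hr]; module
    have e2 : q - r = (1 / 2 : ℝ) • (S 2 - S 3) := by rw [hq, hr]; module
    rw [e1, e2, norm_smul, norm_smul, ← dist_eq_norm, ← dist_eq_norm, h1]
  have hpr : inner ℝ p r = 0 := by
    apply Pos_inner
    have e1 : p + r = (1 / 2 : ℝ) • (S 0 - S 2) := by rw [hp, hr]; module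
    have e2 : p - r = (1 / 2 : ℝ) • (S 1 - S 3) := by rw [hp, hr]; module
    rw [e1, e2, norm_smul, norm_smul, ← dist_eq_norm, ← dist_eq_norm, h2]
  have hpq : inner ℝ p q = 0 := by
    apply Pos_inner
    have e1 : p + q = (1 / 2 : ℝ) • (S 0 - S 3) := by rw [hp, hq]; module
    have e2 : p - q = (1 / 2 : ℝ) • (S 1 - S 2) := by rw [hp, hq]; module
    rw [e1, e2, norm_smul, norm_smul, ← dist_eq_norm, ← dist_eq_norm, h3]
  have ha : 0 < ‖p‖ := norm_pos_iff.2 hp0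
  have hb : 0 < ‖q‖ := norm_pos_iff.2 hq0
  have hc : 0 < ‖r‖ := norm_pos_iff.2 hr0
  have hon : Orthonormal ℝ ![(‖p‖)⁻¹ • p, (‖q‖)⁻¹ • q, (‖r‖)⁻¹ • r] := by
    rw [orthonormal_iff_ite]
    have hpp : inner ℝ ((‖p‖)⁻¹ • p) ((‖p‖)⁻¹ • p) = 1 := by
      rw [real_inner_smul_left, real_inner_smul_right, real_inner_self_eq_norm_mul_norm]
      field_simp
    have hqq : inner ℝ ((‖q‖)⁻¹ • q) ((‖q‖)⁻¹ • q) = 1 := by
      rw [real_inner_smul_left, real_inner_smul_right, real_inner_self_eq_norm_mul_norm]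
      field_simp
    have hrr : inner ℝ ((‖r‖)⁻¹ • r) ((‖r‖)⁻¹ • r) = 1 := by
      rw [real_inner_smul_left, real_inner_smul_right, real_inner_self_eq_norm_mul_norm]
      field_simp
    have hqp : inner ℝ q p = 0 := by rw [real_inner_comm]; exact hpq
    have hrp : inner ℝ r p = 0 := by rw [real_inner_comm]; exact hpr
    have hrq : inner ℝ r q = 0 := by rw [real_inner_comm]; exact hqr
    intro i j
    fin_cases i <;> fin_cases j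
    · exact hpp.trans (by simp)
    · show inner ℝ ((‖p‖)⁻¹ • p) ((‖q‖)⁻¹ • q) = _
      rw [real_inner_smul_left, real_inner_smul_right, hpq]
      simp
    · show inner ℝ ((‖p‖)⁻¹ • p) ((‖r‖)⁻¹ • r) = _
      rw [real_inner_smul_left, real_inner_smul_right, hpr]
      simp
    · show inner ℝ ((‖q‖)⁻¹ • q) ((‖p‖)⁻¹ • p) = _
      rw [real_inner_smul_left, real_inner_smul_right, hqp]
      simp
    · exact hqq.trans (by simp)
    · show inner ℝ ((‖q‖)⁻¹ • q) ((‖r‖)⁻¹ • r) = _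
      rw [real_inner_smul_left, real_inner_smul_right, hqr]
      simp
    · show inner ℝ ((‖r‖)⁻¹ • r) ((‖p‖)⁻¹ • p) = _
      rw [real_inner_smul_left, real_inner_smul_right, hrp]
      simp
    · show inner ℝ ((‖r‖)⁻¹ • r) ((‖q‖)⁻¹ • q) = _
      rw [real_inner_smul_left, real_inner_smul_right, hrq]
      simp
    · exact hrr.trans (by simp)
  have hsp : ⊤ ≤ Submodule.span ℝ (Set.range ![(‖p‖)⁻¹ • p, (‖q‖)⁻¹ • q, (‖r‖)⁻¹ • r]) := by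
    rw [hon.linearIndependent.span_eq_top_of_card_eq_finrank']
    simp
  obtain ⟨bas, hbas⟩ : ∃ bas : OrthonormalBasis (Fin 3) ℝ E3,
      ⇑bas = ![(‖p‖)⁻¹ • p, (‖q‖)⁻¹ • q, (‖r‖)⁻¹ • r] :=
    ⟨OrthonormalBasis.mk hon hsp, OrthonormalBasis.coe_mk hon hsp⟩
  have hQ : ∀ v : E3, bas.repr.symm v =
      v 0 • (‖p‖)⁻¹ • p + v 1 • (‖q‖)⁻¹ • q + v 2 • (‖r‖)⁻¹ • r := by
    intro v
    rw [← bas.sum_repr_symm v, Fin.sum_univ_three, hbas]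
    rfl
  have hP : ∀ x y z : ℝ, bas.repr.symm (!₂[x * ‖p‖, y * ‖q‖, z * ‖r‖] : E3) =
      x • p + y • q + z • r := by
    intro x y z
    rw [hQ]
    show (x * ‖p‖) • (‖p‖)⁻¹ • p + (y * ‖q‖) • (‖q‖)⁻¹ • q + (z * ‖r‖) • (‖r‖)⁻¹ • r = _
    rw [smul_smul, smul_smul, smul_smul, mul_assoc, mul_assoc, mul_assoc,
      mul_inv_cancel₀ ha.ne', mul_inv_cancel₀ hb.ne', mul_inv_cancel₀ hc.ne', mul_one, mul_one,
      mul_one]
  refine ⟨‖p‖, ‖q‖, ‖r‖, m, bas.repr.symm, ha, hb, hc, ?_⟩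
  intro j
  fin_cases j
  · have e : tv ‖p‖ ‖q‖ ‖r‖ 0 = !₂[1 * ‖p‖, 1 * ‖q‖, 1 * ‖r‖] := by simp [tv]
    show S 0 = m + bas.repr.symm (tv ‖p‖ ‖q‖ ‖r‖ 0)
    rw [e, hP, hm, hp, hq, hr]
    module
  · have e : tv ‖p‖ ‖q‖ ‖r‖ 1 = !₂[1 * ‖p‖, (-1) * ‖q‖, (-1) * ‖r‖] := by simp [tv]
    show S 1 = m + bas.repr.symm (tv ‖p‖ ‖q‖ ‖r‖ 1)
    rw [e, hP, hm, hp, hq, hr]
    module
  · have e : tv ‖p‖ ‖q‖ ‖r‖ 2 = !₂[(-1) * ‖p‖, 1 * ‖q‖, (-1) * ‖r‖] := by simp [tv]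
    show S 2 = m + bas.repr.symm (tv ‖p‖ ‖q‖ ‖r‖ 2)
    rw [e, hP, hm, hp, hq, hr]
    module
  · have e : tv ‖p‖ ‖q‖ ‖r‖ 3 = !₂[(-1) * ‖p‖, (-1) * ‖q‖, 1 * ‖r‖] := by simp [tv]
    show S 3 = m + bas.repr.symm (tv ‖p‖ ‖q‖ ‖r‖ 3)
    rw [e, hP, hm, hp, hq, hr]
    module

end Pool.Agent.DSP
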