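import Pool.Agent.DSP.Core
import Pool.Agent.DSP.Pos
import Pool.Agent.InscribedSimplex.Simplex

set_option autoImplicit false

/-! Assembly. -/

open Quaternion Matrix Topology Set Pointwise

namespace Pool.Agent.DSP

theorem tv_smul (κ a b c : ℝ) (j : Fin 4) : tv (κ * a) (κ * b) (κ * c) j = κ • tv a b c j := by
  ext i
  fin_cases j <;> fin_cases i <;> simp [tv]

theorem main {S : Fin 4 → E3} (hS : AffineIndependent ℝ S)
    (h1 : dist (S 0) (S 1) = dist (S 2) (S 3)) (h2 : dist (S 0) (S 2) = dist (S 1) (S 3))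
    (h3 : dist (S 0) (S 3) = dist (S 1) (S 2)) {M : Set E3} (hM : IsCompact M)
    (hint : (interior M).Nonempty) :
    ∃ σ : ℝ, 0 < σ ∧ ∀ τ : ℝ, 0 < τ → τ ≤ σ →
      ∀ f : E3 → ℝ, ContinuousOn f M → (∀ x ∈ M, 0 ≤ f x) → (∀ x ∈ frontier M, f x = 0) →
        ∃ (g : E3 ≃ᵢ E3) (c : ℝ), 0 < c ∧
          (∀ i, g (c • S i) ∈ M) ∧ (∀ i j, f (g (c • S i)) = f (g (c • S j))) ∧
          Metric.diam (convexHull ℝ (Set.range fun i => g (c • S i))) = τ := by
  obtain ⟨a, b, c, m, Q, ha, hb, hc, hpos⟩ := exists_position hS h1 h2 h3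
  obtain ⟨U, y, r, hUo, hUc, hUb, hUM, hUf, hr, hball⟩ := exists_piece hM hint
  set D := Metric.diam (range S) with hD
  have hbdd : Bornology.IsBounded (range S) := (finite_range S).isBounded
  have hne : S 0 ≠ S 1 := fun h => by
    have := hS.injective h
    exact absurd this (by decide)
  have hDpos : 0 < D := (dist_pos.2 hne).trans_le
    (Metric.dist_le_diam_of_mem hbdd (mem_range_self _) (mem_range_self _))
  set R := ‖tv a b c 0‖ with hR
  have hR0 : 0 ≤ R := norm_nonneg _
  refine ⟨D * r / (2 * R + 1), by positivity, ?_⟩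
  intro τ hτ hτσ f hf hf0 hff
  set s := τ / D with hs
  have hspos : 0 < s := by positivity
  have hsr : 2 * (s * R) ≤ r := by
    have h4 : τ * (2 * R + 1) ≤ D * r := by
      rwa [le_div_iff₀ (by positivity)] at hτσ
    have h5 : s * (2 * R + 1) ≤ r := by
      rw [hs, div_mul_eq_mul_div, div_le_iff₀ hDpos]
      linarith
    nlinarith
  have hy : Metric.closedBall y (2 * ‖tv (s * a) (s * b) (s * c) 0‖) ⊆ U := by
    refine (Metric.closedBall_subset_closedBall ?_).trans hball
    rw [tv_smul, norm_smul, Real.norm_of_nonneg hspos.le]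
    exact hsr
  obtain ⟨x, q, hx1, hx2⟩ := core hUc hUb (hf.mono hUM) (fun z hz => hf0 z (hUM hz))
    (fun z hz => hff z (hUf hz)) hy
  set Y : Fin 4 → E3 := fun j => x + rot (q : ℍ[ℝ]) (tv (s * a) (s * b) (s * c) j) with hY
  have hdist : ∀ i j, dist (Y i) (Y j) = s * dist (S i) (S j) := by
    intro i j
    rw [hY]
    beta_reduce
    rw [dist_add_left, dist_eq_norm, ← rot_sub, norm_rot, tv_smul, tv_smul, ← smul_sub, norm_smul,
      Real.norm_of_nonneg hspos.le, hpos i, hpos j, dist_add_left, Q.dist_map, dist_eq_norm]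
  have hA : AffineIndependent ℝ (fun i => s • S i) := by
    have h1 : (fun i => s • S i) =
        (AffineEquiv.homothetyUnitsMulHom (0 : E3) (Units.mk0 s hspos.ne')) ∘ S := by
      funext i
      simp [AffineMap.homothety_apply]
    rw [h1]
    exact (AffineEquiv.affineIndependent_iff _).2 hS
  obtain ⟨g, hg⟩ := Pool.Agent.InscribedSimplex.exists_isometry (k := 2) (A := fun i => s • S i)
    (B := Y) hA (by
    intro i j
    rw [hdist i j, dist_smul₀, Real.norm_of_nonneg hspos.le])
  have hg' : ∀ i, g (s • S i) = Y i := hg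
  refine ⟨g, s, hspos, ?_, ?_, ?_⟩
  · intro i
    rw [hg']; exact hUM (hx1 i)
  · intro i j
    rw [hg', hg']
    exact hx2 i j
  · rw [convexHull_diam]
    have h1 : (range fun i => g (s • S i)) = g '' (s • range S) := by
      ext x
      constructor
      · rintro ⟨i, rfl⟩
        exact ⟨s • S i, ⟨S i, mem_range_self i, rfl⟩, rfl⟩
      · rintro ⟨_, ⟨_, ⟨i, rfl⟩, rfl⟩, rfl⟩
        exact ⟨i, rfl⟩
    rw [h1, IsometryEquiv.diam_image, diam_smul₀, Real.norm_of_nonneg hspos.le, ← hD, hs]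
    field_simp

end Pool.Agent.DSP
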