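import Pool.Agent.DSP.Spin

set_option autoImplicit false

/-! Existence and propagation of spinor lifts. -/

open Quaternion Matrix Topology

namespace Pool.Agent.DSP

private theorem continuous_sig : Continuous sig := by
  have h : ∀ i : Fin 3, Continuous fun v : E3 => ((v i : ℝ) : ℂ) := fun i =>
    Complex.continuous_ofReal.comp (EuclideanSpace.proj i : E3 →L[ℝ] ℝ).continuous
  refine continuous_matrix fun i j => ?_
  fin_cases i <;> fin_cases j
  · exact h 2
  · exact (h 0).sub ((h 1).mul continuous_const)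
  · exact (h 0).add ((h 1).mul continuous_const)
  · exact (h 2).neg

private theorem continuous_proj {G : S3 → E3} {ψ : S3 → Spn} (hG : Continuous G)
    (hψ : Continuous ψ) :
    Continuous fun q => ((‖G q‖ : ℝ) : ℂ) • ψ q + sig (G q) *ᵥ ψ q := by
  refine Continuous.add ?_ ?_
  · exact (Complex.continuous_ofReal.comp hG.norm).smul hψ
  · exact (continuous_sig.comp hG).matrix_mulVec hψ

/-- A map into an open half-space has a lift: `ψ q = ‖F q‖ χ + sig (F q) χ` with `χ` a spinor of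
the normal `n` (`proj_ne_zero` applies because `‖n - F q‖ < ‖n‖ + ‖F q‖`). -/
theorem hasLift_of_pos {F : S3 → E3} (hF : Continuous F) (he : ∀ q, F (-q) = F q) {n : E3}
    (hn : ∀ q, 0 < (inner ℝ (F q) n : ℝ)) : HasLift F := by
  obtain ⟨χ, hχ⟩ := exists_spin n
  refine ⟨fun q => ((‖F q‖ : ℝ) : ℂ) • χ + sig (F q) *ᵥ χ,
    continuous_proj hF continuous_const, ?_, ?_⟩
  · intro q
    refine isSpin_proj (proj_ne_zero hχ ?_)
    have h1 : ‖n - F q‖ * ‖n - F q‖ = ‖n‖ * ‖n‖ - 2 * inner ℝ n (F q) + ‖F q‖ * ‖F q‖ :=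
      norm_sub_mul_self_real n (F q)
    have h2 := hn q
    rw [real_inner_comm] at h2
    have h3 := norm_nonneg n
    have h4 := norm_nonneg (F q)
    have h5 := norm_nonneg (n - F q)
    by_contra h6
    rw [not_lt] at h6
    have h7 : (‖n‖ + ‖F q‖) * (‖n‖ + ‖F q‖) ≤ ‖n - F q‖ * ‖n - F q‖ :=
      mul_self_le_mul_self (by positivity) h6
    nlinarith [mul_nonneg h3 h4]
  · intro q
    show ((‖F (-q)‖ : ℝ) : ℂ) • χ + sig (F (-q)) *ᵥ χ = _
    rw [he]

/-- A lift of `F` gives a lift of `G` if `G` is never opposite to `F`: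
`ψ' q = ‖G q‖ ψ q + sig (G q) ψ q`. -/
theorem hasLift_near {F G : S3 → E3} (hG : Continuous G) (he : ∀ q, G (-q) = G q)
    (hF : HasLift F) (hFG : ∀ q, ‖F q - G q‖ < ‖F q‖ + ‖G q‖) : HasLift G := by
  obtain ⟨ψ, hψ, hs, hev⟩ := hF
  refine ⟨fun q => ((‖G q‖ : ℝ) : ℂ) • ψ q + sig (G q) *ᵥ ψ q, continuous_proj hG hψ, ?_, ?_⟩
  · intro q
    exact isSpin_proj (proj_ne_zero (hs q) (hFG q))
  · intro q
    show ((‖G (-q)‖ : ℝ) : ℂ) • ψ (-q) + sig (G (-q)) *ᵥ ψ (-q) = _
    rw [he, hev]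

/-- Lifts propagate along a preconnected set of parameters (the set of parameters in `C` with a
lift is relatively clopen: by compactness of `S3` and continuity, for `t` near `t'` one has
`‖Φ t q - Φ t' q‖ < ‖Φ t q‖ + ‖Φ t' q‖` for all `q`, then use `hasLift_near` both ways). -/
theorem hasLift_of_preconnected {T : Type*} [TopologicalSpace T] {C : Set T}
    (hC : IsPreconnected C) (Φ : T → S3 → E3) (hΦ : Continuous fun z : T × S3 => Φ z.1 z.2)
    (hne : ∀ t ∈ C, ∀ q, Φ t q ≠ 0) (he : ∀ t q, Φ t (-q) = Φ t q) {t₀ t₁ : T}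
    (h0 : t₀ ∈ C) (h1 : t₁ ∈ C) (h : HasLift (Φ t₀)) : HasLift (Φ t₁) := by
  have hcont : ∀ t, Continuous (Φ t) := fun t => hΦ.comp (by fun_prop : Continuous fun q : S3 => (t, q))
  have hnear : ∀ t ∈ C, ∀ᶠ t' in 𝓝 t, ∀ q ∈ (Set.univ : Set S3),
      ‖Φ t q - Φ t' q‖ < ‖Φ t q‖ + ‖Φ t' q‖ := by
    intro t ht
    refine isCompact_univ.eventually_forall_of_forall_eventually ?_
    intro q _
    have hopen : IsOpen {z : T × S3 | ‖Φ t z.2 - Φ z.1 z.2‖ < ‖Φ t z.2‖ + ‖Φ z.1 z.2‖} := by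
      refine isOpen_lt ?_ ?_
      · exact (((hcont t).comp continuous_snd).sub hΦ).norm
      · exact ((hcont t).comp continuous_snd).norm.add hΦ.norm
    refine hopen.mem_nhds ?_
    show ‖Φ t q - Φ t q‖ < ‖Φ t q‖ + ‖Φ t q‖
    rw [sub_self, norm_zero]
    have := norm_pos_iff.2 (hne t ht q)
    linarith
  have : PreconnectedSpace C := Subtype.preconnectedSpace hC
  have hloc : IsLocallyConstant (fun t : C => HasLift (Φ (t : T))) := by
    rw [IsLocallyConstant.iff_eventually_eq]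
    intro t
    have h2 := (continuous_subtype_val.tendsto t).eventually (hnear t t.2)
    refine h2.mono fun t' ht' => ?_
    refine propext ⟨fun h3 => ?_, fun h3 => ?_⟩
    · refine hasLift_near (hcont _) (he _) h3 fun q => ?_
      have h4 := ht' q (Set.mem_univ q)
      rw [norm_sub_rev, add_comm]
      exact h4
    · exact hasLift_near (hcont _) (he _) h3 fun q => ht' q (Set.mem_univ q)
  have h3 := hloc.apply_eq_of_preconnectedSpace (⟨t₀, h0⟩ : C) ⟨t₁, h1⟩
  exact h3 ▸ h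

end Pool.Agent.DSP
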