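import Pool.Agent.DSP.Defs

set_option autoImplicit false

/-! The rotation action of the unit quaternions. -/

open Quaternion Matrix Topology

namespace Pool.Agent.DSP

private theorem quat_re (r x y z : ℝ) : (quat r x y z).re = r := rfl
private theorem quat_imI (r x y z : ℝ) : (quat r x y z).imI = x := rfl
private theorem quat_imJ (r x y z : ℝ) : (quat r x y z).imJ = y := rfl
private theorem quat_imK (r x y z : ℝ) : (quat r x y z).imK = z := rfl

private theorem rot0 (q : ℍ[ℝ]) (v : E3) : rot q v 0 =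
    (q.re ^ 2 + q.imI ^ 2 - q.imJ ^ 2 - q.imK ^ 2) * v 0 +
      2 * (q.imI * q.imJ - q.re * q.imK) * v 1 + 2 * (q.imI * q.imK + q.re * q.imJ) * v 2 := by
  simp only [rot, PiLp.toLp_apply, Matrix.cons_val_zero, Quaternion.re_mul, Quaternion.imI_mul, Quaternion.imJ_mul,
    Quaternion.imK_mul, quat_re, quat_imI, quat_imJ, quat_imK, Quaternion.re_star,
    Quaternion.imI_star, Quaternion.imJ_star, Quaternion.imK_star]
  ring

private theorem rot1 (q : ℍ[ℝ]) (v : E3) : rot q v 1 =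
    2 * (q.imI * q.imJ + q.re * q.imK) * v 0 +
    (q.re ^ 2 - q.imI ^ 2 + q.imJ ^ 2 - q.imK ^ 2) * v 1 +
      2 * (q.imJ * q.imK - q.re * q.imI) * v 2 := by
  simp only [rot, PiLp.toLp_apply, Matrix.cons_val_one, Matrix.cons_val_zero,
    Quaternion.re_mul, Quaternion.imI_mul, Quaternion.imJ_mul,
    Quaternion.imK_mul, quat_re, quat_imI, quat_imJ, quat_imK, Quaternion.re_star,
    Quaternion.imI_star, Quaternion.imJ_star, Quaternion.imK_star]
  ring

private theorem rot2 (q : ℍ[ℝ]) (v : E3) : rot q v 2 =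
    2 * (q.imI * q.imK - q.re * q.imJ) * v 0 +
      2 * (q.imJ * q.imK + q.re * q.imI) * v 1 +
    (q.re ^ 2 - q.imI ^ 2 - q.imJ ^ 2 + q.imK ^ 2) * v 2 := by
  simp only [rot, PiLp.toLp_apply, Matrix.cons_val,
    Quaternion.re_mul, Quaternion.imI_mul, Quaternion.imJ_mul,
    Quaternion.imK_mul, quat_re, quat_imI, quat_imJ, quat_imK, Quaternion.re_star,
    Quaternion.imI_star, Quaternion.imJ_star, Quaternion.imK_star]
  ring

private theorem E3_ext {v w : E3} (h0 : v 0 = w 0) (h1 : v 1 = w 1) (h2 : v 2 = w 2) : v = w := by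
  ext i
  fin_cases i
  · exact h0
  · exact h1
  · exact h2

private theorem S3_sq (q : S3) : (q : ℍ[ℝ]).re ^ 2 + (q : ℍ[ℝ]).imI ^ 2 + (q : ℍ[ℝ]).imJ ^ 2 +
    (q : ℍ[ℝ]).imK ^ 2 = 1 := by
  have h1 : ‖(q : ℍ[ℝ])‖ = 1 := mem_sphere_zero_iff_norm.1 q.2
  rw [← Quaternion.normSq_def', Quaternion.normSq_eq_norm_mul_self, h1, mul_one]

theorem rot_add (q : ℍ[ℝ]) (v w : E3) : rot q (v + w) = rot q v + rot q w := by
  refine E3_ext ?_ ?_ ?_
  · simp only [PiLp.add_apply, rot0]; ring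
  · simp only [PiLp.add_apply, rot1]; ring
  · simp only [PiLp.add_apply, rot2]; ring

theorem rot_smul (q : ℍ[ℝ]) (r : ℝ) (v : E3) : rot q (r • v) = r • rot q v := by
  refine E3_ext ?_ ?_ ?_
  · simp only [PiLp.smul_apply, smul_eq_mul, rot0]; ring
  · simp only [PiLp.smul_apply, smul_eq_mul, rot1]; ring
  · simp only [PiLp.smul_apply, smul_eq_mul, rot2]; ring

theorem norm_rot (q : S3) (v : E3) : ‖rot (q : ℍ[ℝ]) v‖ = ‖v‖ := by
  have h := S3_sq q
  rw [EuclideanSpace.norm_eq, EuclideanSpace.norm_eq]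
  congr 1
  simp only [Fin.sum_univ_three, Real.norm_eq_abs, sq_abs, rot0, rot1, rot2]
  have key : ∀ r x y z a b c : ℝ,
      ((r ^ 2 + x ^ 2 - y ^ 2 - z ^ 2) * a + 2 * (x * y - r * z) * b + 2 * (x * z + r * y) * c) ^ 2 +
      (2 * (x * y + r * z) * a + (r ^ 2 - x ^ 2 + y ^ 2 - z ^ 2) * b + 2 * (y * z - r * x) * c) ^ 2 +
      (2 * (x * z - r * y) * a + 2 * (y * z + r * x) * b + (r ^ 2 - x ^ 2 - y ^ 2 + z ^ 2) * c) ^ 2 =
      (r ^ 2 + x ^ 2 + y ^ 2 + z ^ 2) ^ 2 * (a ^ 2 + b ^ 2 + c ^ 2) := by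
    intro r x y z a b c
    ring
  rw [key, h, one_pow, one_mul]

theorem rot_neg (q : S3) (v : E3) : rot ((-q : S3) : ℍ[ℝ]) v = rot (q : ℍ[ℝ]) v := by
  have h : ((-q : S3) : ℍ[ℝ]) = -(q : ℍ[ℝ]) := rfl
  rw [h]
  unfold rot
  rw [star_neg, neg_mul, neg_mul_neg]

theorem rot_mul_qi (q : S3) (v : E3) : rot ((q * qi : S3) : ℍ[ℝ]) v = rot (q : ℍ[ℝ]) (D1 v) := by
  have h : ((q * qi : S3) : ℍ[ℝ]) = (q : ℍ[ℝ]) * quat 0 1 0 0 := rfl
  rw [h]
  have d0 : D1 v 0 = v 0 := rfl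
  have d1 : D1 v 1 = -v 1 := rfl
  have d2 : D1 v 2 = -v 2 := rfl
  refine E3_ext ?_ ?_ ?_
  · simp only [rot0, d0, d1, d2, Quaternion.re_mul, Quaternion.imI_mul, Quaternion.imJ_mul,
      Quaternion.imK_mul, quat_re, quat_imI, quat_imJ, quat_imK]
    ring
  · simp only [rot1, d0, d1, d2, Quaternion.re_mul, Quaternion.imI_mul, Quaternion.imJ_mul,
      Quaternion.imK_mul, quat_re, quat_imI, quat_imJ, quat_imK]
    ring
  · simp only [rot2, d0, d1, d2, Quaternion.re_mul, Quaternion.imI_mul, Quaternion.imJ_mul,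
      Quaternion.imK_mul, quat_re, quat_imI, quat_imJ, quat_imK]
    ring

theorem rot_mul_qj (q : S3) (v : E3) : rot ((q * qj : S3) : ℍ[ℝ]) v = rot (q : ℍ[ℝ]) (D2 v) := by
  have h : ((q * qj : S3) : ℍ[ℝ]) = (q : ℍ[ℝ]) * quat 0 0 1 0 := rfl
  rw [h]
  have d0 : D2 v 0 = -v 0 := rfl
  have d1 : D2 v 1 = v 1 := rfl
  have d2 : D2 v 2 = -v 2 := rfl
  refine E3_ext ?_ ?_ ?_
  · simp only [rot0, d0, d1, d2, Quaternion.re_mul, Quaternion.imI_mul, Quaternion.imJ_mul,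
      Quaternion.imK_mul, quat_re, quat_imI, quat_imJ, quat_imK]
    ring
  · simp only [rot1, d0, d1, d2, Quaternion.re_mul, Quaternion.imI_mul, Quaternion.imJ_mul,
      Quaternion.imK_mul, quat_re, quat_imI, quat_imJ, quat_imK]
    ring
  · simp only [rot2, d0, d1, d2, Quaternion.re_mul, Quaternion.imI_mul, Quaternion.imJ_mul,
      Quaternion.imK_mul, quat_re, quat_imI, quat_imJ, quat_imK]
    ring

theorem continuous_rot : Continuous fun z : S3 × E3 => rot (z.1 : ℍ[ℝ]) z.2 := by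
  have hq : Continuous fun z : S3 × E3 => (z.1 : ℍ[ℝ]) := continuous_subtype_val.comp continuous_fst
  have h0 : Continuous fun z : S3 × E3 => (z.1 : ℍ[ℝ]).re := Quaternion.continuous_re.comp hq
  have h1 : Continuous fun z : S3 × E3 => (z.1 : ℍ[ℝ]).imI := Quaternion.continuous_imI.comp hq
  have h2 : Continuous fun z : S3 × E3 => (z.1 : ℍ[ℝ]).imJ := Quaternion.continuous_imJ.comp hq
  have h3 : Continuous fun z : S3 × E3 => (z.1 : ℍ[ℝ]).imK := Quaternion.continuous_imK.comp hq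
  have hv : ∀ i : Fin 3, Continuous fun z : S3 × E3 => z.2 i := fun i => by fun_prop
  rw [← (PiLp.homeomorph 2 (fun _ : Fin 3 => ℝ)).comp_continuous_iff]
  refine continuous_pi fun i => ?_
  fin_cases i
  · show Continuous fun z : S3 × E3 => rot (z.1 : ℍ[ℝ]) z.2 0
    simp only [rot0]
    fun_prop
  · show Continuous fun z : S3 × E3 => rot (z.1 : ℍ[ℝ]) z.2 1
    simp only [rot1]
    fun_prop
  · show Continuous fun z : S3 × E3 => rot (z.1 : ℍ[ℝ]) z.2 2
    simp only [rot2]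
    fun_prop

/-- `rot q` as a linear isometry equivalence. -/
theorem exists_rot_equiv (q : S3) : ∃ e : E3 ≃ₗᵢ[ℝ] E3, ∀ v, e v = rot (q : ℍ[ℝ]) v := by
  let f : E3 →ₗᵢ[ℝ] E3 :=
    { toFun := fun v => rot (q : ℍ[ℝ]) v
      map_add' := rot_add _
      map_smul' := rot_smul _
      norm_map' := norm_rot q }
  exact ⟨f.toLinearIsometryEquiv rfl, fun v => rfl⟩

end Pool.Agent.DSP
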