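import Pool.Agent.DSP.Defs

set_option autoImplicit false

/-! Algebra of the Pauli matrix.  All proofs are two-by-two computations. -/

open Quaternion Matrix

namespace Pool.Agent.DSP

/-- `sig` is additive. -/
theorem sig_add (v w : E3) : sig (v + w) = sig v + sig w := by
  ext i j
  fin_cases i <;> fin_cases j <;> simp [sig] <;> ring

theorem sig_smul (r : ℝ) (v : E3) : sig (r • v) = ((r : ℝ) : ℂ) • sig v := by
  ext i j
  fin_cases i <;> fin_cases j <;> simp [sig] <;> ring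

private theorem norm_sq_real (v : E3) : ‖v‖ ^ 2 = v 0 ^ 2 + v 1 ^ 2 + v 2 ^ 2 := by
  rw [EuclideanSpace.norm_sq_eq, Fin.sum_univ_three]
  simp only [Real.norm_eq_abs, sq_abs]

private theorem norm_sq_cx (v : E3) : ((‖v‖ : ℝ) : ℂ) ^ 2 =
    ((v 0 : ℝ) : ℂ) ^ 2 + ((v 1 : ℝ) : ℂ) ^ 2 + ((v 2 : ℝ) : ℂ) ^ 2 := by
  have h := norm_sq_real v
  exact_mod_cast h

private theorem mulVec_fst (v : E3) (ψ : Spn) : (sig v *ᵥ ψ) 0 =
    ((v 2 : ℝ) : ℂ) * ψ 0 + (((v 0 : ℝ) : ℂ) - ((v 1 : ℝ) : ℂ) * Complex.I) * ψ 1 := by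
  simp [sig, Matrix.mulVec, dotProduct, Fin.sum_univ_two]

private theorem mulVec_snd (v : E3) (ψ : Spn) : (sig v *ᵥ ψ) 1 =
    (((v 0 : ℝ) : ℂ) + ((v 1 : ℝ) : ℂ) * Complex.I) * ψ 0 - ((v 2 : ℝ) : ℂ) * ψ 1 := by
  simp [sig, Matrix.mulVec, dotProduct, Fin.sum_univ_two]
  ring

/-- `sig v` squares to `‖v‖² • 1`. -/
theorem sig_sq (v : E3) (ψ : Spn) : sig v *ᵥ (sig v *ᵥ ψ) = (((‖v‖ : ℝ) : ℂ) ^ 2) • ψ := by
  have hI : Complex.I ^ 2 = -1 := Complex.I_sq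
  ext i
  fin_cases i
  · change (sig v *ᵥ (sig v *ᵥ ψ)) 0 = ((((‖v‖ : ℝ) : ℂ) ^ 2) • ψ) 0
    rw [mulVec_fst, mulVec_fst, mulVec_snd, Pi.smul_apply, smul_eq_mul, norm_sq_cx]
    linear_combination (-((v 1 : ℝ) : ℂ) ^ 2 * ψ 0) * hI
  · change (sig v *ᵥ (sig v *ᵥ ψ)) 1 = ((((‖v‖ : ℝ) : ℂ) ^ 2) • ψ) 1
    rw [mulVec_snd, mulVec_fst, mulVec_snd, Pi.smul_apply, smul_eq_mul, norm_sq_cx]
    linear_combination (-((v 1 : ℝ) : ℂ) ^ 2 * ψ 1) * hI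

/-- The projection to the `+` eigenline. -/
theorem isSpin_proj {v : E3} {ψ : Spn} (h : ((‖v‖ : ℝ) : ℂ) • ψ + sig v *ᵥ ψ ≠ 0) :
    IsSpin v (((‖v‖ : ℝ) : ℂ) • ψ + sig v *ᵥ ψ) := by
  refine ⟨h, ?_⟩
  rw [Matrix.mulVec_add, Matrix.mulVec_smul, sig_sq, smul_add, smul_smul, pow_two]
  exact add_comm _ _

/-- If `w` is not opposite to `v` then the projection to the eigenline of `w` is injective on the
eigenline of `v`.  (If the projection vanished then `sig (‖w‖ • v + ‖v‖ • w) ψ = 0`, so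
`‖w‖ • v + ‖v‖ • w = 0` by `sig_sq`, and then `‖v - w‖ = ‖v‖ + ‖w‖`.) -/
theorem proj_ne_zero {v w : E3} {ψ : Spn} (hv : IsSpin v ψ) (hvw : ‖v - w‖ < ‖v‖ + ‖w‖) :
    ((‖w‖ : ℝ) : ℂ) • ψ + sig w *ᵥ ψ ≠ 0 := by
  intro h
  obtain ⟨hψ, hs⟩ := hv
  have hw : sig w *ᵥ ψ = -(((‖w‖ : ℝ) : ℂ) • ψ) := by
    rw [eq_neg_iff_add_eq_zero, add_comm]; exact h
  have h0 : sig (‖w‖ • v + ‖v‖ • w) *ᵥ ψ = 0 := by
    rw [sig_add, sig_smul, sig_smul, Matrix.add_mulVec, Matrix.smul_mulVec, Matrix.smul_mulVec,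
      hs, hw, smul_neg, smul_smul, smul_smul, mul_comm, add_neg_cancel]
  have h1 := sig_sq (‖w‖ • v + ‖v‖ • w) ψ
  rw [h0, Matrix.mulVec_zero] at h1
  have h2 : (((‖(‖w‖ • v + ‖v‖ • w : E3)‖ : ℝ) : ℂ) ^ 2) = 0 := by
    rcases smul_eq_zero.mp h1.symm with h3 | h3
    · exact h3
    · exact absurd h3 hψ
  have h3 : (‖w‖ • v + ‖v‖ • w : E3) = 0 := by
    have h4 : ((‖(‖w‖ • v + ‖v‖ • w : E3)‖ : ℝ) : ℂ) = 0 := pow_eq_zero_iff (two_ne_zero) |>.mp h2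
    have h5 : ‖(‖w‖ • v + ‖v‖ • w : E3)‖ = 0 := by exact_mod_cast h4
    exact norm_eq_zero.mp h5
  by_cases hv0 : v = 0
  · subst hv0
    simp at hvw
  by_cases hw0 : w = 0
  · subst hw0
    simp at hvw
  have hvn : 0 < ‖v‖ := norm_pos_iff.mpr hv0
  have hwn : 0 < ‖w‖ := norm_pos_iff.mpr hw0
  have h6 : ‖w‖ • v = -(‖v‖ • w) := eq_neg_iff_add_eq_zero.mpr h3
  have h7 : ‖v‖ • (v - w) = (‖v‖ + ‖w‖) • v := by
    rw [smul_sub, add_smul, h6, sub_eq_add_neg]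
  have h8 : ‖v‖ * ‖v - w‖ = (‖v‖ + ‖w‖) * ‖v‖ := by
    have := congrArg norm h7
    rwa [norm_smul, norm_smul, Real.norm_of_nonneg hvn.le,
      Real.norm_of_nonneg (by positivity : (0 : ℝ) ≤ ‖v‖ + ‖w‖)] at this
  nlinarith

/-- Every vector has a spinor. -/
theorem exists_spin (n : E3) : ∃ χ : Spn, IsSpin n χ := by
  by_cases hn : n = 0
  · subst hn
    refine ⟨![1, 0], ?_, ?_⟩
    · intro h
      have := congrFun h 0
      simp at this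
    · ext i
      fin_cases i <;> simp [sig, Matrix.mulVec, dotProduct, Fin.sum_univ_two]
  by_cases h1 : ((‖n‖ : ℝ) : ℂ) • (![1, 0] : Spn) + sig n *ᵥ ![1, 0] ≠ 0
  · exact ⟨_, isSpin_proj h1⟩
  by_cases h2 : ((‖n‖ : ℝ) : ℂ) • (![0, 1] : Spn) + sig n *ᵥ ![0, 1] ≠ 0
  · exact ⟨_, isSpin_proj h2⟩
  exfalso
  rw [not_not] at h1 h2
  have e1 := congrFun h1 0
  have e2 := congrFun h2 1
  simp [sig] at e1 e2
  have e3 : ((‖n‖ : ℝ) : ℂ) = 0 := by linear_combination (e1 + e2) / 2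
  have e4 : ‖n‖ = 0 := by exact_mod_cast e3
  exact hn (norm_eq_zero.mp e4)

open scoped ComplexOrder in
private theorem star_dot_aux {ψ : Spn} (h : ψ ≠ 0) : star ψ ⬝ᵥ ψ ≠ 0 := by
  intro h0
  exact h (dotProduct_star_self_eq_zero.mp h0)

/-- The eigenline of a nonzero vector is one-dimensional: with the hermitian product
`⟪ψ, φ⟫ = ∑ conj (ψ i) * φ i`, the scalar is `⟪ψ, φ⟫ / ⟪ψ, ψ⟫`. -/
theorem spin_unique {v : E3} (hv : v ≠ 0) {ψ φ : Spn} (h1 : IsSpin v ψ) (h2 : IsSpin v φ) :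
    φ = ((star ψ ⬝ᵥ φ) / (star ψ ⬝ᵥ ψ)) • ψ := by
  have hn : ((‖v‖ : ℝ) : ℂ) ≠ 0 := by
    have : ‖v‖ ≠ 0 := norm_ne_zero_iff.mpr hv
    exact_mod_cast this
  have a0 := congrFun h1.2 0
  have a1 := congrFun h1.2 1
  have b0 := congrFun h2.2 0
  have b1 := congrFun h2.2 1
  rw [mulVec_fst, Pi.smul_apply, smul_eq_mul] at a0 b0
  rw [mulVec_snd, Pi.smul_apply, smul_eq_mul] at a1 b1
  have hD : ψ 0 * φ 1 - ψ 1 * φ 0 = 0 := by
    have : ((‖v‖ : ℝ) : ℂ) * (ψ 0 * φ 1 - ψ 1 * φ 0) = 0 := by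
      linear_combination (-(φ 1) * a0 + ψ 1 * b0 + φ 0 * a1 - ψ 0 * b1) / 2
    exact (mul_eq_zero.mp this).resolve_left hn
  have hS : star ψ ⬝ᵥ ψ ≠ 0 := star_dot_aux h1.1
  ext i
  rw [Pi.smul_apply, smul_eq_mul, div_mul_eq_mul_div, eq_div_iff hS]
  simp only [dotProduct, Fin.sum_univ_two, Pi.star_apply]
  fin_cases i
  · change φ 0 * _ = _ * ψ 0
    linear_combination (-(star (ψ 1))) * hD
  · change φ 1 * _ = _ * ψ 1
    linear_combination (star (ψ 0)) * hD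

private theorem norm_D1 (v : E3) : ‖D1 v‖ = ‖v‖ := by
  have h1 := norm_sq_real (D1 v)
  have h2 := norm_sq_real v
  have h3 : ‖D1 v‖ ^ 2 = ‖v‖ ^ 2 := by
    rw [h1, h2]
    simp [D1]
  exact (sq_eq_sq₀ (norm_nonneg _) (norm_nonneg _)).mp h3

private theorem norm_D2 (v : E3) : ‖D2 v‖ = ‖v‖ := by
  have h1 := norm_sq_real (D2 v)
  have h2 := norm_sq_real v
  have h3 : ‖D2 v‖ ^ 2 = ‖v‖ ^ 2 := by
    rw [h1, h2]
    simp [D2]
  exact (sq_eq_sq₀ (norm_nonneg _) (norm_nonneg _)).mp h3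

/-- `sig 1` (first Pauli matrix) intertwines `sig v` and `sig (D1 v)`. -/
theorem isSpin_D1 {v : E3} {ψ : Spn} (h : IsSpin v ψ) :
    IsSpin (D1 v) (!![(0 : ℂ), 1; 1, 0] *ᵥ ψ) := by
  have a0 := congrFun h.2 0
  have a1 := congrFun h.2 1
  rw [mulVec_fst, Pi.smul_apply, smul_eq_mul] at a0
  rw [mulVec_snd, Pi.smul_apply, smul_eq_mul] at a1
  have c0 : (!![(0 : ℂ), 1; 1, 0] *ᵥ ψ) 0 = ψ 1 := by
    simp [Matrix.mulVec, dotProduct, Fin.sum_univ_two]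
  have c1 : (!![(0 : ℂ), 1; 1, 0] *ᵥ ψ) 1 = ψ 0 := by
    simp [Matrix.mulVec, dotProduct, Fin.sum_univ_two]
  have d0 : (D1 v) 0 = v 0 := by simp [D1]
  have d1 : (D1 v) 1 = -v 1 := by simp [D1]
  have d2 : (D1 v) 2 = -v 2 := by simp [D1]
  refine ⟨?_, ?_⟩
  · intro h0
    apply h.1
    ext i
    fin_cases i
    · change ψ 0 = 0
      rw [← c1, h0]; rfl
    · change ψ 1 = 0
      rw [← c0, h0]; rfl
  · ext i
    fin_cases i
    · change (sig (D1 v) *ᵥ (!![(0 : ℂ), 1; 1, 0] *ᵥ ψ)) 0 =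
        (((‖D1 v‖ : ℝ) : ℂ) • (!![(0 : ℂ), 1; 1, 0] *ᵥ ψ)) 0
      rw [mulVec_fst, Pi.smul_apply, smul_eq_mul, c0, c1, d0, d1, d2, norm_D1]
      push_cast
      linear_combination a1
    · change (sig (D1 v) *ᵥ (!![(0 : ℂ), 1; 1, 0] *ᵥ ψ)) 1 =
        (((‖D1 v‖ : ℝ) : ℂ) • (!![(0 : ℂ), 1; 1, 0] *ᵥ ψ)) 1
      rw [mulVec_snd, Pi.smul_apply, smul_eq_mul, c0, c1, d0, d1, d2, norm_D1]
      push_cast
      linear_combination a0

theorem isSpin_D2 {v : E3} {ψ : Spn} (h : IsSpin v ψ) :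
    IsSpin (D2 v) (!![(0 : ℂ), -Complex.I; Complex.I, 0] *ᵥ ψ) := by
  have hI : Complex.I ^ 2 = -1 := Complex.I_sq
  have a0 := congrFun h.2 0
  have a1 := congrFun h.2 1
  rw [mulVec_fst, Pi.smul_apply, smul_eq_mul] at a0
  rw [mulVec_snd, Pi.smul_apply, smul_eq_mul] at a1
  have c0 : (!![(0 : ℂ), -Complex.I; Complex.I, 0] *ᵥ ψ) 0 = -Complex.I * ψ 1 := by
    simp [Matrix.mulVec, dotProduct, Fin.sum_univ_two]
  have c1 : (!![(0 : ℂ), -Complex.I; Complex.I, 0] *ᵥ ψ) 1 = Complex.I * ψ 0 := by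
    simp [Matrix.mulVec, dotProduct, Fin.sum_univ_two]
  have d0 : (D2 v) 0 = -v 0 := by simp [D2]
  have d1 : (D2 v) 1 = v 1 := by simp [D2]
  have d2 : (D2 v) 2 = -v 2 := by simp [D2]
  refine ⟨?_, ?_⟩
  · intro h0
    apply h.1
    ext i
    fin_cases i
    · change ψ 0 = 0
      have : Complex.I * ψ 0 = 0 := by rw [← c1, h0]; rfl
      exact (mul_eq_zero.mp this).resolve_left Complex.I_ne_zero
    · change ψ 1 = 0
      have : -Complex.I * ψ 1 = 0 := by rw [← c0, h0]; rfl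
      exact (mul_eq_zero.mp this).resolve_left (neg_ne_zero.mpr Complex.I_ne_zero)
  · ext i
    fin_cases i
    · change (sig (D2 v) *ᵥ (!![(0 : ℂ), -Complex.I; Complex.I, 0] *ᵥ ψ)) 0 =
        (((‖D2 v‖ : ℝ) : ℂ) • (!![(0 : ℂ), -Complex.I; Complex.I, 0] *ᵥ ψ)) 0
      rw [mulVec_fst, Pi.smul_apply, smul_eq_mul, c0, c1, d0, d1, d2, norm_D2]
      push_cast
      linear_combination (-Complex.I) * a1
    · change (sig (D2 v) *ᵥ (!![(0 : ℂ), -Complex.I; Complex.I, 0] *ᵥ ψ)) 1 =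
        (((‖D2 v‖ : ℝ) : ℂ) • (!![(0 : ℂ), -Complex.I; Complex.I, 0] *ᵥ ψ)) 1
      rw [mulVec_snd, Pi.smul_apply, smul_eq_mul, c0, c1, d0, d1, d2, norm_D2]
      push_cast
      linear_combination (Complex.I) * a0

theorem star_dot_self_ne {ψ : Spn} (h : ψ ≠ 0) : star ψ ⬝ᵥ ψ ≠ 0 :=
  star_dot_aux h

end Pool.Agent.DSP
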